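import Pool.Agent.Helper16_ANP.PrtD

/-! The main induction of the protocol, part 5: release phase, end, final theorem. -/

set_option autoImplicit false

open MeasureTheory ProbabilityTheory

open scoped ENNReal NNReal BigOperators

noncomputable section

namespace Pool.Agent.ANP.H16

variable {X : Type} [Fintype X] [DecidableEq X]
  {Γ : Geo X} {d : ℕ} {o : X} {F : Set (X → ℝ)} {th : ℝ≥0} {kk : ℕ → ℕ} {cl : ℕ → ℝ≥0}
  {Kn Dn : ℕ → ℕ} {p π : ℕ → ℝ} {LI : ℕ → Lb X → Prop}

/-- the number of the sites of `W` in the block `B` -/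
def cnt (Γ : Geo X) (n : ℕ) (W : Finset X) (B : X) : ℝ :=
  ((W.filter fun y => Γ.bl n y = B).card : ℝ)

theorem cnt_nonneg (n : ℕ) (W : Finset X) (B : X) : 0 ≤ cnt Γ n W B := Nat.cast_nonneg _

theorem cnt_insert {n : ℕ} {W : Finset X} {z : X} (hz : z ∉ W) (B : X) :
    cnt Γ n (insert z W) B = cnt Γ n W B + if Γ.bl n z = B then 1 else 0 := by
  unfold cnt
  rw [Finset.filter_insert]
  split_ifs with h
  · rw [Finset.card_insert_of_notMem (fun h2 => hz (Finset.mem_filter.mp h2).1)]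
    push_cast
    ring
  · rw [add_zero]

theorem cnt_le_insert {n : ℕ} {W : Finset X} {z : X} (hz : z ∉ W) (B : X) :
    cnt Γ n W B ≤ cnt Γ n (insert z W) B := by
  rw [cnt_insert hz]
  split_ifs <;> linarith

/-- the release phase -/
theorem rel_mid (h : Pr Γ d o F th kk cl Kn Dn p π LI) (A : Ana Γ d o F th kk cl Kn Dn p)
    {n : ℕ} (hn : n ≤ Γ.N)
    (next : ∀ (T : Cfg X) (L : Lb X) (a : X → ℝ) (r : X → ℝ≥0) (x : ℕ × X → ℝ),
      Bs Γ kk cl Dn π LI (n + 1) (kk (n + 1)) ∅ T L a r x → A.HS (n + 1) (kk (n + 1)) T L.run →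
      (∀ B, Γ.bl (n + 1) B = B → B ∉ L.bad (n + 1) →
        p (n + 1) * ((kk (n + 2) : ℝ) - kk (n + 1) + (Γ.L (n + 1) : ℝ) ^ d) ≤ x (n + 1, B)) →
      Win F a r (vv Γ o x))
    (T₀ : Cfg X) (run₀ : Finset X) (hHS : A.HS n (kk (n + 1)) T₀ run₀)
    (hFc : Fc Γ kk cl Dn n (kk (n + 1)) ∅ T₀ run₀) (W : Finset X) :
    ∀ (P : Finset X) (T : Cfg X) (L : Lb X) (a : X → ℝ) (r : X → ℝ≥0) (x : ℕ × X → ℝ),
      Bs Γ kk cl Dn π LI n (kk (n + 1)) ∅ T L a r x → A.HR n T₀ run₀ P T L.run →
      (∀ y ∈ P, ∃ c ∈ L.op, Dnp Γ n L c ∧ ∃ q ∈ L.cmp Γ n c, Γ.D q y ≤ Γ.ρ n) →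
      (∀ c ∈ L.op, c ∉ W → Dnp Γ n L c) →
      (∀ B, Γ.bl n B = B → B ∉ L.bad n → p n * cnt Γ n W B ≤ x (n, B)) →
      Win F a r (vv Γ o x) := by
  have hp0 := h.p0 n
  induction W using Finset.induction_on with
  | empty =>
    intro P T L a r x hB hHR _ hdone _
    have hel : ∀ c ∈ L.op, ¬ L.elig Γ n (L.cmp Γ n c) := fun c hc =>
      dnp_not_elig (hdone c hc (Finset.notMem_empty c))
    have hB0 := hB.next h hel T.mb
    have hsub : (L.nxt Γ n).run ⊆ L.run := by
      show (L.run \ _) \ _ ⊆ L.run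
      exact Finset.sdiff_subset.trans Finset.sdiff_subset
    have hfc' : Fc Γ kk cl Dn (n + 1) (kk (n + 1)) ∅ T (L.nxt Γ n).run := hB0.fc
    obtain ⟨m, hm⟩ := A.rfin n T₀ run₀ P T L.run (L.nxt Γ n).run hn hHS hFc hB.fc hHR hsub hfc'
    refine next (T.rg m) (L.nxt Γ n) a r x (hB.next h hel m) hm fun B _ _ => ?_
    refine le_trans ?_ (hB.cj (n + 1) (Nat.lt_succ_self n) B)
    exact h.pp (n + 1)
  | insert z W hzW ih =>
    intro P T L a r x hB hHR hP hdone hc
    have hfac := h.fac n L hB.li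
    by_cases hz : z ∈ L.op ∧ L.elig Γ n (L.cmp Γ n z)
    · -- an attempt
      obtain ⟨hzo, hel⟩ := hz
      set Q := L.cmp Γ n z with hQ
      set B := Γ.bl n z with hBdef
      have hn1 : 1 ≤ n := by
        by_contra hc
        have h0 : n = 0 := by omega
        rw [hfac.pen h0] at hzo
        exact absurd hzo (Finset.notMem_empty z)
      have hzQ : z ∈ Q := self_comp hzo
      have hBB : Γ.bl n B = B := h.geo.idem n z
      have hBb : B ∉ L.bad n := by
        intro hb
        have h1 : z ∈ Γ.enl n (L.bad n) 1 :=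
          blk_sub_enl h.geo hb 1 (by rw [mem_blk])
        have h2 := hel.2 z hzQ z h1
        rw [h.geo.self] at h2
        exact absurd h2 (Nat.not_lt_zero _)
      obtain ⟨hrel1, hrel2, hrel3⟩ := hfac.rel z hzo hel
      have hQp : Q ⊆ L.pend := hel.1
      have hpx : p n ≤ x (n, B) := by
        have h1 := hc B hBB hBb
        rw [cnt_insert hzW, if_pos rfl] at h1
        have h2 := mul_nonneg hp0 (cnt_nonneg (Γ := Γ) n W B)
        linarith
      have hdisRQ : Disjoint (L.run ∩ Γ.nbh Q (Γ.ρ n)) Q := by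
        rw [Finset.disjoint_left]
        intro y hy hyQ
        exact hB.disj h (Finset.mem_inter.mp hy).1 (hQp hyQ)
      -- the value
      have hval := val_step (J := Γ.J) (N := Γ.N + 2) (near := Γ.near o) (e₀ := 1 / 4)
        (tree_ch Γ) hB.x0 (n, B) hp0 (hpx.trans (hB.x1 _)) hpx
      have hle : val Γ.ch Γ.J (Γ.N + 2) (Γ.near o) (1 / 4)
          (Function.update x (n, B) (x (n, B) - p n)) ≤
          val Γ.ch Γ.J (Γ.N + 2) (Γ.near o) (1 / 4) (Function.update x (n, B) 1) :=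
        val_mono (upd_nonneg hB.x0 _ (sub_nonneg.mpr hpx))
          (upd_le _ (by linarith [hB.x1 (n, B)]))
      refine win_mono (e := val Γ.ch Γ.J (Γ.N + 2) (Γ.near o) (1 / 4)
          (Function.update x (n, B) (x (n, B) - p n)) +
          p n * (val Γ.ch Γ.J (Γ.N + 2) (Γ.near o) (1 / 4) (Function.update x (n, B) 1) -
            val Γ.ch Γ.J (Γ.N + 2) (Γ.near o) (1 / 4)
              (Function.update x (n, B) (x (n, B) - p n)))) ?_ (by unfold vv; linarith)
      refine atw X F h.hF (L.run ∩ Γ.nbh Q (Γ.ρ n)) Q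
        (fun v T' => (∀ x ∈ Q, T'.V x = v x ∧ T'.s x = 0) ∧
          ({x ∈ L.run | T'.s x = 0} : Finset X).card ≤ Kn n ∧
          A.HR n T₀ run₀ (P ∪ Γ.nbh Q (Γ.ρ n)) T' {x ∈ L.run | T'.s x ≠ 0})
        T a r (p n) _ _ hdisRQ hp0
        (val_nonneg (upd_nonneg hB.x0 _ (sub_nonneg.mpr hpx)) (by norm_num)) hle
        (fun y hy => hB.tru y (hB.disj h (Finset.mem_inter.mp hy).1)) ?_ ?_ ?_
      · intro v
        refine A.kil n T₀ run₀ P T L.run Q v hn hn1 hHS hFc hB.fc hHR ⟨z, hzQ⟩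
          (fun y hy => ⟨fun hr => hB.disj h hr (hQp hy), hB.ppos y (hQp hy)⟩)
          (fun y hy w hw => ?_) hrel2 (fun y hy w hD => ?_) (fun y hy w hw => ?_)
        · have h1 := hrel1 y hy
          have h2 := hrel1 w hw
          have h3 := h.geo.tri y z w
          rw [h.geo.comm y z] at h3
          omega
        · by_cases hwQ : w ∈ Q
          · exact Or.inl hwQ
          · right
            by_cases hwr : w ∈ L.run
            · exact Or.inl hwr
            · right
              refine hB.dead w hwr fun hwp => ?_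
              exact absurd (hrel3 y hy w hwp hwQ) (not_lt.mpr hD)
        · obtain ⟨c, _, hdc, q, hq, hqD⟩ := hP w hw
          by_contra hcon
          have h1 : Γ.D y w ≤ 3 * Γ.ρ n := not_lt.mp hcon
          have h2 := h.geo.tri q w y
          rw [h.geo.comm w y] at h2
          have h3 : Γ.D q y ≤ 10 * Γ.ρ n := by omega
          have h4 : L.cmp Γ n c = L.cmp Γ n z := comp_eq h.geo hq hy h3
          refine dnp_not_elig hdc ?_
          rw [h4]
          exact hel
      · -- success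
        intro v T' a' r' hOk hmb hR1 hR2 hQ1 hoff
        obtain ⟨hOk1, hOk2, hOk3⟩ := hOk
        have hKdef : ∀ y, y ∈ ({x ∈ L.run | T'.s x = 0} : Finset X) ↔
            y ∈ L.run ∧ T'.s y = 0 := fun y => Finset.mem_filter
        have hB' := hB.die h hBb hpx hzo hel
          (fun y hy => ⟨by rw [(hQ1 y hy).1, (hOk1 y hy).1], (hQ1 y hy).2, (hOk1 y hy).2⟩)
          hR1 hR2 hoff _ hKdef hOk2
        have hrun' : (L.die n ({x ∈ L.run | T'.s x = 0} : Finset X) Q).run =
            ({x ∈ L.run | T'.s x ≠ 0} : Finset X) := by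
          ext y
          show y ∈ L.run \ _ ↔ _
          rw [Finset.mem_sdiff, hKdef, Finset.mem_filter]
          tauto
        refine ih (P ∪ Γ.nbh Q (Γ.ρ n)) T' _ a' r' _ hB' (by rw [hrun']; exact hOk3) ?_ ?_ ?_
        · intro y hy
          rw [Finset.mem_union, mem_nbh] at hy
          rcases hy with hy | ⟨q, hq, hD⟩
          · obtain ⟨c, hc1, hc2, hc3⟩ := hP y hy
            exact ⟨c, hc1, dnp_die hc2, hc3⟩
          · refine ⟨z, hzo, Or.inl ⟨z, hzQ, fun h1 => ?_, fun h1 => ?_⟩, q, hq, ?_⟩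
            · exact hB.disj h (Finset.mem_sdiff.mp h1).1 (hQp hzQ)
            · exact (Finset.mem_sdiff.mp h1).2 hzQ
            · rw [h.geo.comm]; exact hD
        · intro c hc1 hc2
          by_cases hcz : c = z
          · subst hcz
            exact Or.inl ⟨c, hzQ, fun h1 => hB.disj h (Finset.mem_sdiff.mp h1).1 (hQp hzQ),
              fun h1 => (Finset.mem_sdiff.mp h1).2 hzQ⟩
          · exact dnp_die (hdone c hc1 fun h1 => by
              rcases Finset.mem_insert.mp h1 with h1 | h1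
              · exact hcz h1
              · exact hc2 h1)
        · intro C h1 h2
          have h3 := hc C h1 h2
          rw [cnt_insert hzW] at h3
          by_cases hCB : C = B
          · subst hCB
            rw [Function.update_self]
            rw [if_pos rfl] at h3
            linarith
          · rw [Function.update_of_ne (by simpa using hCB)]
            rw [if_neg (Ne.symm hCB), add_zero] at h3
            exact h3
      · -- failure
        intro a' r' hoff
        have hRen : ∀ y, y ∈ L.run ∩ Γ.nbh Q (Γ.ρ n) → y ∈ Γ.enl n {B} 1 := by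
          intro y hy
          obtain ⟨q, hq, hD⟩ := (mem_nbh Γ Q (Γ.ρ n) y).mp (Finset.mem_inter.mp hy).2
          rw [mem_enl]
          refine ⟨z, Finset.mem_singleton_self _, ?_⟩
          have h1 := hrel1 q hq
          have h2 := h.geo.tri y q z
          rw [h.geo.comm q z] at h2
          omega
        have hB' := hB.rej h (P' := ∅) (a' := a') (r' := r') (h.kk_le n) hBB
          (Finset.Subset.refl _) (fun y _ _ hy => hy)
          (fun y hy hye => hoff y (fun hq => hy (hQp hq)) fun hR => hye (hRen y hR))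
          (fun y hy hyr => hoff y (fun hq => hy (hQp hq))
            fun hR => hyr (Finset.mem_inter.mp hR).1)
        have hbad : (L.add Γ n {B}).bad n = L.bad n ∪ {B} := by
          show Function.update L.bad n (L.bad n ∪ {B}) n = _
          rw [Function.update_self]
        refine ih P T (L.add Γ n {B}) a' r' _ hB' ?_ ?_ ?_ ?_
        · exact A.rmon n T₀ run₀ P P T L.run _ (Finset.Subset.refl _) Finset.sdiff_subset hB.fc
            hB'.fc hHR
        · intro y hy
          obtain ⟨c, hc1, hc2, hc3⟩ := hP y hy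
          exact ⟨c, hc1, dnp_add hc2, hc3⟩
        · intro c hc1 hc2
          by_cases hcz : c = z
          · subst hcz
            right
            refine ⟨c, hzQ, c, ?_, ?_⟩
            · rw [hbad]
              refine blk_sub_enl h.geo (B := B)
                (Finset.mem_union_right _ (Finset.mem_singleton_self B)) 1 ?_
              rw [mem_blk]
            · rw [h.geo.self]
              exact Nat.zero_le _
          · exact dnp_add (hdone c hc1 fun h1 => by
              rcases Finset.mem_insert.mp h1 with h1 | h1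
              · exact hcz h1
              · exact hc2 h1)
        · intro C h1 h2
          rw [hbad, Finset.mem_union, Finset.mem_singleton, not_or] at h2
          rw [Function.update_of_ne (by simpa using h2.2)]
          refine le_trans (mul_le_mul_of_nonneg_left (cnt_le_insert hzW C) hp0) (hc C h1 h2.1)
    · -- nothing to do
      refine ih P T L a r x hB hHR hP (fun c hc1 hc2 => ?_) fun C h1 h2 => ?_
      · by_cases hcz : c = z
        · subst hcz
          exact not_elig_dnp hB.opr fun hel => hz ⟨hc1, hel⟩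
        · exact hdone c hc1 fun h1 => by
            rcases Finset.mem_insert.mp h1 with h1 | h1
            · exact hcz h1
            · exact hc2 h1
      · exact le_trans (mul_le_mul_of_nonneg_left (cnt_le_insert hzW C) hp0) (hc C h1 h2)

/-- the release phase of the super-stage `n` -/
theorem rel_step (h : Pr Γ d o F th kk cl Kn Dn p π LI) (A : Ana Γ d o F th kk cl Kn Dn p)
    {n : ℕ} (hn : n ≤ Γ.N)
    (next : ∀ (T : Cfg X) (L : Lb X) (a : X → ℝ) (r : X → ℝ≥0) (x : ℕ × X → ℝ),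
      Bs Γ kk cl Dn π LI (n + 1) (kk (n + 1)) ∅ T L a r x → A.HS (n + 1) (kk (n + 1)) T L.run →
      (∀ B, Γ.bl (n + 1) B = B → B ∉ L.bad (n + 1) →
        p (n + 1) * ((kk (n + 2) : ℝ) - kk (n + 1) + (Γ.L (n + 1) : ℝ) ^ d) ≤ x (n + 1, B)) →
      Win F a r (vv Γ o x))
    (T : Cfg X) (L : Lb X) (a : X → ℝ) (r : X → ℝ≥0) (x : ℕ × X → ℝ)
    (hB : Bs Γ kk cl Dn π LI n (kk (n + 1)) ∅ T L a r x) (hHS : A.HS n (kk (n + 1)) T L.run)
    (hc : ∀ B, Γ.bl n B = B → B ∉ L.bad n →
        p n * ((kk (n + 1) : ℝ) - (kk (n + 1) : ℕ) + (Γ.L n : ℝ) ^ d) ≤ x (n, B)) :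
    Win F a r (vv Γ o x) := by
  refine rel_mid h A hn next T L.run hHS hB.fc Finset.univ ∅ T L a r x hB
    (A.rbeg n T L.run hn hB.fc hHS) (fun y hy => absurd hy (Finset.notMem_empty y))
    (fun c _ hc => absurd (Finset.mem_univ c) hc) fun B h1 h2 => ?_
  refine le_trans (mul_le_mul_of_nonneg_left ?_ (h.p0 n)) (hc B h1 h2)
  rw [sub_self, zero_add]
  unfold cnt
  have h3 := h.geo.bvol n B
  unfold Geo.blk at h3
  exact_mod_cast h3

/-- the end -/
theorem fin_step (h : Pr Γ d o F th kk cl Kn Dn p π LI) (A : Ana Γ d o F th kk cl Kn Dn p)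
    (T : Cfg X) (L : Lb X) (a : X → ℝ) (r : X → ℝ≥0) (x : ℕ × X → ℝ)
    (hB : Bs Γ kk cl Dn π LI (Γ.N + 1) (kk (Γ.N + 1)) ∅ T L a r x)
    (hHS : A.HS (Γ.N + 1) (kk (Γ.N + 1)) T L.run) : Win F a r (vv Γ o x) := by
  have hfac := h.fac _ L hB.li
  have hone : ∀ j ≤ Γ.N + 1, ∀ B ∈ L.bad j, B ∈ Γ.near o j → Win F a r (vv Γ o x) := by
    intro j hj B hB1 hB2
    have h1 := val_one (N := Γ.N + 2) (near := Γ.near o) (e₀ := 1 / 4) hB.x0 (by norm_num)
      (by omega : j < Γ.N + 2) hB2 (hB.qq j B hB1)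
    unfold vv
    rw [h1]
    exact win_one F a r
  by_cases ho : o ∈ L.run
  · by_cases hfar : ∀ y, y ∉ L.run → T.s y ≠ 0 → 3 * Γ.ρ (Γ.N + 1) < Γ.D o y
    · refine win_mono (A.out T L.run a r hHS hB.fc ho hfar fun y hy => hB.tru y ?_) ?_
      · intro hp
        rcases hy with h1 | h1
        · exact hB.disj h h1 hp
        · exact absurd h1 (hB.ppos y hp).ne'
      · unfold vv val
        refine le_min (by norm_num) ?_
        have := H72.phi_nonneg (ch := Γ.ch) (J := Γ.J) hB.x0 (Γ.N + 2) (Γ.near o)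
        linarith
    · push Not at hfar
      obtain ⟨y, hyr, hys, hyD⟩ := hfar
      have hyp : y ∈ L.pend := by
        by_contra hc
        exact hys (hB.dead y hyr hc)
      by_cases hyo : y ∈ L.op
      · have h1 := hfac.opn Γ.N rfl hyo
        obtain ⟨w, hw, hwD⟩ := (mem_enl Γ Γ.N (L.bad Γ.N) 2 y).mp h1
        refine hone Γ.N (Nat.le_succ _) (Γ.bl Γ.N w) hw ((mem_near Γ o Γ.N _).mpr
          ⟨h.geo.idem _ _, w, rfl, ?_⟩)
        have h2 := h.geo.tri o y w
        omega
      · have h1 := hfac.npe y hyp hyo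
        obtain ⟨w, hw, hwD⟩ := (mem_enl Γ (Γ.N + 1) (L.bad (Γ.N + 1)) 1 y).mp h1
        refine hone (Γ.N + 1) le_rfl (Γ.bl (Γ.N + 1) w) hw ((mem_near Γ o (Γ.N + 1) _).mpr
          ⟨h.geo.idem _ _, w, rfl, ?_⟩)
        have h2 := h.geo.tri o y w
        have h3 := h.scl.big Γ.N
        have h4 := h.scl.J1
        have h5 : 1 ≤ 3 ^ d * Γ.J := Nat.one_le_iff_ne_zero.mpr
          (Nat.mul_ne_zero (by positivity) (by omega))
        have h6 : 1 * (5 * Γ.L Γ.N + 12 * Γ.ρ (Γ.N + 1)) ≤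
            3 ^ d * Γ.J * (5 * Γ.L Γ.N + 12 * Γ.ρ (Γ.N + 1)) := Nat.mul_le_mul_right _ h5
        omega
  · obtain ⟨j, hj, B, hB1, hB2⟩ := hfac.orig ho
    exact hone j hj B hB1 hB2

/-- from the stage `k` to the end of the super-stage -/
theorem super_mid (h : Pr Γ d o F th kk cl Kn Dn p π LI) (A : Ana Γ d o F th kk cl Kn Dn p)
    {n : ℕ} (hn : n ≤ Γ.N)
    (next : ∀ (T : Cfg X) (L : Lb X) (a : X → ℝ) (r : X → ℝ≥0) (x : ℕ × X → ℝ),
      Bs Γ kk cl Dn π LI (n + 1) (kk (n + 1)) ∅ T L a r x → A.HS (n + 1) (kk (n + 1)) T L.run →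
      (∀ B, Γ.bl (n + 1) B = B → B ∉ L.bad (n + 1) →
        p (n + 1) * ((kk (n + 2) : ℝ) - kk (n + 1) + (Γ.L (n + 1) : ℝ) ^ d) ≤ x (n + 1, B)) →
      Win F a r (vv Γ o x)) (j : ℕ) :
    ∀ (k : ℕ), kk n ≤ k → k + j = kk (n + 1) →
    ∀ (T : Cfg X) (L : Lb X) (a : X → ℝ) (r : X → ℝ≥0) (x : ℕ × X → ℝ),
      Bs Γ kk cl Dn π LI n k ∅ T L a r x → A.HS n k T L.run →
      (∀ B, Γ.bl n B = B → B ∉ L.bad n →
        p n * ((kk (n + 1) : ℝ) - k + (Γ.L n : ℝ) ^ d) ≤ x (n, B)) →
      Win F a r (vv Γ o x) := by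
  induction j with
  | zero =>
    intro k _ hkj T L a r x hB hHS hc
    have hk : k = kk (n + 1) := by omega
    subst hk
    exact rel_step h A hn next T L a r x hB hHS hc
  | succ j ih =>
    intro k hk hkj T L a r x hB hHS hc
    refine stage_step h A hn hk (by omega) (fun T L a r x hB hHS hc => ?_) T L a r x hB hHS hc
    refine ih (k + 1) (by omega) (by omega) T L a r x hB hHS fun B h1 h2 => ?_
    have := hc B h1 h2
    push_cast
    exact this

/-- from the super-stage `n` to the end -/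
theorem all_super (h : Pr Γ d o F th kk cl Kn Dn p π LI) (A : Ana Γ d o F th kk cl Kn Dn p) (j : ℕ) :
    ∀ (n : ℕ), n + j = Γ.N + 1 →
    ∀ (T : Cfg X) (L : Lb X) (a : X → ℝ) (r : X → ℝ≥0) (x : ℕ × X → ℝ),
      Bs Γ kk cl Dn π LI n (kk n) ∅ T L a r x → A.HS n (kk n) T L.run →
      (∀ B, Γ.bl n B = B → B ∉ L.bad n →
        p n * ((kk (n + 1) : ℝ) - kk n + (Γ.L n : ℝ) ^ d) ≤ x (n, B)) →
      Win F a r (vv Γ o x) := by
  induction j with
  | zero =>
    intro n hn T L a r x hB hHS _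
    have hn' : n = Γ.N + 1 := by omega
    subst hn'
    exact fin_step h A T L a r x hB hHS
  | succ j ih =>
    intro n hn T L a r x hB hHS hc
    have hlt := h.kk_le n
    exact super_mid h A (by omega) (ih (n + 1) (by omega)) (kk (n + 1) - kk n) (kk n) le_rfl
      (by omega) T L a r x hB hHS hc

/-- PRT -/
theorem prt (hLab : LabStmt) : PrtStmt := by
  intro X _ _ Γ d o F th kk cl Kn Dn p π hF hG hS hth0 hth1 hDn hk0 hkk hcl hcl0 hp hpp hπ hA hPhi
  obtain ⟨A⟩ := hA
  obtain ⟨LI, l0, l1, l2, l3, l4⟩ := hLab X Γ d o Kn Dn hG hS hDn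
  have h : Pr Γ d o F th kk cl Kn Dn p π LI :=
    ⟨hF, hG, hS, hkk, hth0, hth1, hcl, hcl0, hp, hpp, l1, l2, l3, l4⟩
  have hπ0 : ∀ n, 0 ≤ π n := by
    intro n
    refine le_trans (mul_nonneg (hp n) ?_) (hpp n)
    have h1 : (kk n : ℝ) ≤ kk (n + 1) := by exact_mod_cast (hkk n).le
    have h2 : (0 : ℝ) ≤ (Γ.L n : ℝ) ^ d := by positivity
    linarith
  have hB : Bs Γ kk cl Dn π LI 0 (kk 0) ∅ ⟨fun _ => 0, fun _ => cl 0, A.m0⟩ (Lb.ini X)
      (fun _ => 0) (fun _ => cl 0) (fun i => π i.1) := by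
    refine ⟨l0, fun _ _ => rfl, ?_, fun c => hπ0 c.1, fun c => hπ c.1,
      fun j B hB => absurd hB (Finset.notMem_empty B), ⟨fun y _ => ?_, fun y hy => ?_, ?_,
        fun m hm => absurd hm (by omega)⟩, fun y hy => absurd hy (Finset.notMem_empty y),
      fun y hy => absurd (Finset.mem_univ y) hy, fun y hy => absurd hy (Finset.notMem_empty y),
      fun y _ => ⟨rfl, rfl⟩, fun j _ B => le_rfl⟩
    · exact Finset.disjoint_empty_left _
    · rw [if_neg (Finset.notMem_empty y), hk0]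
    · exact absurd (Finset.mem_univ y) hy
    · refine ⟨fun _ => ∅, fun y hy => absurd hy hcl0.ne', fun j B => ?_⟩
      rw [Finset.empty_inter, Finset.card_empty]
      exact Nat.zero_le _
  have h1 := all_super h A (Γ.N + 1) 0 (by omega) _ (Lb.ini X) _ _ _ hB
    (by rw [hk0]; exact A.ini) fun B _ _ => hpp 0
  refine win_mono h1 ?_
  unfold vv val
  refine (min_le_right _ _).trans ?_
  linarith

end Pool.Agent.ANP.H16
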