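import Pool.Agent.Helper16_ANP.PrtC

/-! The main induction of the protocol, part 4: the release phase. -/

set_option autoImplicit false

open MeasureTheory ProbabilityTheory

open scoped ENNReal NNReal BigOperators

noncomputable section

namespace Pool.Agent.ANP.H16

variable {X : Type} [Fintype X] [DecidableEq X]
  {Γ : Geo X} {d : ℕ} {o : X} {F : Set (X → ℝ)} {th : ℝ≥0} {kk : ℕ → ℕ} {cl : ℕ → ℝ≥0}
  {Kn Dn : ℕ → ℕ} {p π : ℕ → ℝ} {LI : ℕ → Lb X → Prop}

/-- the component of `c` cannot be released any more -/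
def Dnp (Γ : Geo X) (n : ℕ) (L : Lb X) (c : X) : Prop :=
  (∃ q ∈ L.cmp Γ n c, q ∉ L.run ∧ q ∉ L.pend) ∨
    ∃ q ∈ L.cmp Γ n c, ∃ z ∈ Γ.enl n (L.bad n) 1, Γ.D q z ≤ Γ.ρ n

theorem dnp_not_elig {n : ℕ} {L : Lb X} {c : X} (h : Dnp Γ n L c) :
    ¬ L.elig Γ n (L.cmp Γ n c) := by
  rintro ⟨h1, h2⟩
  rcases h with ⟨q, hq, _, hqp⟩ | ⟨q, hq, z, hz, hD⟩
  · exact hqp (h1 hq)
  · exact absurd (h2 q hq z hz) (not_lt.mpr hD)

theorem not_elig_dnp {n : ℕ} {L : Lb X} (hop : Disjoint L.op L.run) {c : X}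
    (h : ¬ L.elig Γ n (L.cmp Γ n c)) : Dnp Γ n L c := by
  by_cases h1 : L.cmp Γ n c ⊆ L.pend
  · right
    by_contra h2
    push Not at h2
    exact h ⟨h1, fun y hy z hz => h2 y hy z hz⟩
  · left
    obtain ⟨q, hq, hqp⟩ := Finset.not_subset.mp h1
    exact ⟨q, hq, fun hr => Finset.disjoint_left.mp hop (comp_sub hq) hr, hqp⟩

theorem dnp_add {n : ℕ} {L : Lb X} {c : X} {𝓑 : Finset X} (h : Dnp Γ n L c) :
    Dnp Γ n (L.add Γ n 𝓑) c := by
  have hbad : (L.add Γ n 𝓑).bad n = L.bad n ∪ 𝓑 := by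
    show Function.update L.bad n (L.bad n ∪ 𝓑) n = _
    rw [Function.update_self]
  rcases h with ⟨q, hq, h1, h2⟩ | ⟨q, hq, z, hz, hD⟩
  · left
    refine ⟨q, hq, fun h3 => h1 (Finset.mem_sdiff.mp h3).1, fun h3 => ?_⟩
    have h4 : q ∈ L.pend ∪ (L.run ∩ Γ.enl n 𝓑 1) := h3
    rw [Finset.mem_union, Finset.mem_inter] at h4
    rcases h4 with h4 | h4
    · exact h2 h4
    · exact h1 h4.1
  · right
    refine ⟨q, hq, z, ?_, hD⟩
    rw [hbad]
    exact enl_mono Finset.subset_union_left 1 hz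

theorem dnp_die {n : ℕ} {L : Lb X} {c : X} {K Q : Finset X} (h : Dnp Γ n L c) :
    Dnp Γ n (L.die n K Q) c := by
  rcases h with ⟨q, hq, h1, h2⟩ | ⟨q, hq, z, hz, hD⟩
  · left
    exact ⟨q, hq, fun h3 => h1 (Finset.mem_sdiff.mp h3).1,
      fun h3 => h2 (Finset.mem_sdiff.mp h3).1⟩
  · right
    exact ⟨q, hq, z, hz, hD⟩

/-- a successful attempt -/
theorem Bs.die (h : Pr Γ d o F th kk cl Kn Dn p π LI) {n k : ℕ} {T T' : Cfg X}
    {L : Lb X} {a a' : X → ℝ} {r r' : X → ℝ≥0} {x : ℕ × X → ℝ}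
    (hB : Bs Γ kk cl Dn π LI n k ∅ T L a r x) {B : X} (hBb : B ∉ L.bad n)
    (hpx : p n ≤ x (n, B)) {z : X} (hz : z ∈ L.op) (hel : L.elig Γ n (L.cmp Γ n z))
    (hQ : ∀ y ∈ L.cmp Γ n z, a' y = T'.V y ∧ r' y = 0 ∧ T'.s y = 0)
    (hR1 : ∀ y ∈ L.run ∩ Γ.nbh (L.cmp Γ n z) (Γ.ρ n), a' y = T'.V y ∧ r' y = T'.s y)
    (hR2 : ∀ y ∈ L.run ∩ Γ.nbh (L.cmp Γ n z) (Γ.ρ n),
      T'.s y = 0 ∨ T'.V y = T.V y ∧ T'.s y = T.s y)
    (hoff : ∀ y, y ∉ L.cmp Γ n z → y ∉ L.run ∩ Γ.nbh (L.cmp Γ n z) (Γ.ρ n) →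
      a' y = a y ∧ r' y = r y ∧ T'.V y = T.V y ∧ T'.s y = T.s y)
    (K : Finset X) (hKdef : ∀ y, y ∈ K ↔ y ∈ L.run ∧ T'.s y = 0) (hK : K.card ≤ Kn n) :
    Bs Γ kk cl Dn π LI n k ∅ T' (L.die n K (L.cmp Γ n z)) a' r'
      (Function.update x (n, B) (x (n, B) - p n)) := by
  have hp0 := h.p0 n
  obtain ⟨u0, u1⟩ := upd01 hB.x0 hB.x1 (n, B) (t := x (n, B) - p n) (by linarith)
    (by linarith [hB.x1 (n, B)])
  set Q := L.cmp Γ n z with hQdef
  set R := L.run ∩ Γ.nbh Q (Γ.ρ n) with hRdef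
  have hQp : Q ⊆ L.pend := hel.1
  have hrQ : ∀ y, y ∈ L.run → y ∉ Q := fun y hy hq => hB.disj h hy (hQp hq)
  have hrp := hB.run_pos h
  have hKR : K ⊆ R := by
    intro y hy
    rw [hKdef] at hy
    by_contra hc
    have h1 := (hoff y (hrQ y hy.1) hc).2.2.2
    rw [hy.2] at h1
    exact absurd h1.symm (hrp y hy.1).ne'
  have hrun : (L.die n K Q).run = L.run \ K := rfl
  have hpend : (L.die n K Q).pend = L.pend \ Q := rfl
  have hLI : LI n (L.die n K Q) := h.die n L z K hB.li hz hel hKR hK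
  -- a site which is not dead in the new configuration is as before
  have hsame : ∀ y, T'.s y ≠ 0 → y ∉ Q ∧ T'.s y = T.s y := by
    intro y hy
    have hyQ : y ∉ Q := fun hq => hy (hQ y hq).2.2
    refine ⟨hyQ, ?_⟩
    by_cases hyR : y ∈ R
    · rcases hR2 y hyR with h1 | h1
      · exact absurd h1 hy
      · exact h1.2
    · exact (hoff y hyQ hyR).2.2.2
  have hrun' : ∀ y, y ∈ L.run \ K ↔ y ∈ L.run ∧ T'.s y ≠ 0 := by
    intro y
    rw [Finset.mem_sdiff, hKdef]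
    tauto
  have hpp : ∀ y ∈ L.pend \ Q, T'.s y = T.s y := by
    intro y hy
    rw [Finset.mem_sdiff] at hy
    refine (hoff y hy.2 fun hyR => ?_).2.2.2
    exact hB.disj h (Finset.mem_inter.mp hyR).1 hy.1
  have hpos' : ∀ y ∈ (L.die n K Q).pend, 0 < T'.s y := by
    intro y hy
    rw [hpend] at hy
    rw [hpp y hy]
    exact hB.ppos y (Finset.mem_sdiff.mp hy).1
  have hrpos' : ∀ y ∈ (L.die n K Q).run, T'.s y ≠ 0 := by
    intro y hy
    rw [hrun, hrun'] at hy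
    exact hy.2
  refine ⟨hLI, hB.badj, ?_, u0, u1, coin_upd _ hB.badj hB.qq hBb,
    ⟨fun y hy => ?_, fun y hy => ?_, fc_dens h hLI hrpos' hpos', fun m hm y hy hcl w hw => ?_⟩,
    hpos', fun y h1 h2 => ?_, fun y h1 h2 => ?_, fun y hy => ?_, cj_upd _ hB.cj⟩
  · exact hB.opr.mono_right Finset.sdiff_subset
  · rw [hrun, hrun'] at hy
    rw [(hsame y hy.2).2]
    exact hB.fc.runs y hy.1
  · by_cases h0 : T'.s y = 0
    · exact Or.inl h0
    · right
      rw [(hsame y h0).2]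
      have hy' : y ∉ L.run := fun hr => hy (by rw [hrun, hrun']; exact ⟨hr, h0⟩)
      rcases hB.fc.rest y hy' with h1 | h1
      · exact absurd h1 (by rw [← (hsame y h0).2]; exact h0)
      · exact h1
  · have h0 : T'.s y ≠ 0 := (lt_of_le_of_lt zero_le hcl).ne'
    rw [(hsame y h0).2] at hcl
    have hy' : y ∉ L.run := fun hr => hy (by rw [hrun, hrun']; exact ⟨hr, h0⟩)
    exact hB.fc.shell m hm y hy' hcl w (Finset.mem_sdiff.mp hw).1
  · rw [hpend, Finset.mem_sdiff, not_and, not_not] at h2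
    rw [hrun, hrun', not_and, not_not] at h1
    by_cases hyp : y ∈ L.pend
    · exact (hQ y (h2 hyp)).2.2
    · by_cases hyr : y ∈ L.run
      · exact h1 hyr
      · by_cases hyQ : y ∈ Q
        · exact (hQ y hyQ).2.2
        · rw [(hoff y hyQ fun hR => hyr (Finset.mem_inter.mp hR).1).2.2.2]
          exact hB.dead y hyr hyp
  · have h1' : y ∈ L.pend \ Q := h1
    rw [hpp y h1']
    exact hB.new y (Finset.mem_sdiff.mp h1').1 h2
  · rw [hpend, Finset.mem_sdiff, not_and, not_not] at hy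
    by_cases hyQ : y ∈ Q
    · obtain ⟨e1, e2, e3⟩ := hQ y hyQ
      exact ⟨e1, by rw [e2, e3]⟩
    · have hyp : y ∉ L.pend := fun h1 => hyQ (hy h1)
      by_cases hyR : y ∈ R
      · exact hR1 y hyR
      · obtain ⟨e1, e2, e3, e4⟩ := hoff y hyQ hyR
        rw [e1, e2, e3, e4]
        exact hB.tru y hyp

/-- the next super-stage -/
theorem Bs.next (h : Pr Γ d o F th kk cl Kn Dn p π LI) {n : ℕ} {T : Cfg X}
    {L : Lb X} {a : X → ℝ} {r : X → ℝ≥0} {x : ℕ × X → ℝ}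
    (hB : Bs Γ kk cl Dn π LI n (kk (n + 1)) ∅ T L a r x)
    (hel : ∀ c ∈ L.op, ¬ L.elig Γ n (L.cmp Γ n c)) (m : X → ℂ) :
    Bs Γ kk cl Dn π LI (n + 1) (kk (n + 1)) ∅ (T.rg m) (L.nxt Γ n) a r x := by
  have hLI := h.nxt n L hB.li hel
  have hfac := h.fac n L hB.li
  set S := Γ.nbh (L.op ∩ L.pend) (3 * Γ.ρ n) with hS
  set E := Γ.enl (n + 1) (L.many Γ n) 1 with hE
  have hrun : (L.nxt Γ n).run = (L.run \ S) \ E := rfl
  have hpend : (L.nxt Γ n).pend = (L.pend ∪ (L.run ∩ S)) ∪ ((L.run \ S) ∩ E) := rfl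
  have hop : (L.nxt Γ n).op = L.pend ∪ (L.run ∩ S) := rfl
  have hbad : (L.nxt Γ n).bad = Function.update L.bad (n + 1) (L.bad (n + 1) ∪ L.many Γ n) := rfl
  have hcl : ∀ y ∈ L.run, T.s y = cl (kk (n + 1)) := by
    intro y hy
    have := hB.fc.runs y hy
    rwa [if_neg (Finset.notMem_empty y)] at this
  have hsub : (L.nxt Γ n).run ⊆ L.run := by
    rw [hrun]
    exact Finset.sdiff_subset.trans Finset.sdiff_subset
  have hpos : ∀ y ∈ (L.nxt Γ n).pend, 0 < T.s y := by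
    intro y hy
    rw [hpend, Finset.mem_union, Finset.mem_union, Finset.mem_inter, Finset.mem_inter,
      Finset.mem_sdiff] at hy
    rcases hy with (hy | hy) | hy
    · exact hB.ppos y hy
    · exact hB.run_pos h y hy.1
    · exact hB.run_pos h y hy.1.1
  -- outside of the new labels
  have hout : ∀ y, y ∉ (L.nxt Γ n).run → y ∉ (L.nxt Γ n).pend → y ∉ L.run ∧ y ∉ L.pend := by
    intro y h1 h2
    rw [hrun, Finset.mem_sdiff, Finset.mem_sdiff] at h1
    rw [hpend, Finset.mem_union, Finset.mem_union, Finset.mem_inter, Finset.mem_inter,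
      Finset.mem_sdiff] at h2
    tauto
  refine ⟨hLI, fun j hj => ?_, ?_, hB.x0, hB.x1, fun j C hC => ?_,
    ⟨fun y hy => ?_, fun y hy => ?_,
      fc_dens (T := T.rg m) h hLI (fun y hy => (hB.run_pos h y (hsub hy)).ne') hpos,
      fun m' hm y hy hcly w hw => ?_⟩, hpos, fun y h1 h2 => ?_, fun y h1 h2 => ?_, fun y hy => ?_,
      fun j hj B => hB.cj j (by omega) B⟩
  · rw [hbad, Function.update_of_ne (by omega)]
    exact hB.badj j (by omega)
  · rw [hop, hrun, Finset.disjoint_left]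
    intro y hy hy2
    rw [Finset.mem_sdiff, Finset.mem_sdiff] at hy2
    rw [Finset.mem_union, Finset.mem_inter] at hy
    rcases hy with hy | hy
    · exact hB.disj h hy2.1.1 hy
    · exact hy2.1.2 hy.2
  · rw [hbad] at hC
    by_cases hj : j = n + 1
    · subst hj
      rw [Function.update_self, hB.badj (n + 1) (Nat.lt_succ_self n), Finset.empty_union] at hC
      have hC' : Γ.bl (n + 1) C = C ∧ Γ.J < (Γ.sub n (L.bad n) C).card := by
        simpa [Lb.many] using hC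
      refine H72.qq_one_of_children hB.x0 (T := Γ.sub n (L.bad n) C) ?_ hC'.2 fun b hb => ?_
      · intro b hb
        have hb' : b ∈ L.bad n ∧ Γ.bl (n + 1) b = C := by simpa [Geo.sub] using hb
        rw [mem_ch]
        exact ⟨hfac.rep n b hb'.1, hb'.2⟩
      · have hb' : b ∈ L.bad n ∧ Γ.bl (n + 1) b = C := by simpa [Geo.sub] using hb
        exact hB.qq n b hb'.1
    · rw [Function.update_of_ne hj] at hC
      exact hB.qq j C hC
  · rw [if_neg (Finset.notMem_empty y)]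
    exact hcl y (hsub hy)
  · rw [if_neg (Finset.notMem_empty y)]
    by_cases hyr : y ∈ L.run
    · right
      show cl (kk (n + 1)) ≤ T.s y ∧ T.s y ≤ cl 0
      rw [hcl y hyr]
      exact ⟨le_rfl, h.cl_anti (Nat.zero_le _)⟩
    · have := hB.fc.rest y hyr
      rwa [if_neg (Finset.notMem_empty y)] at this
  · -- the shells
    have hmn : m' = n := by omega
    subst hmn
    have hcly' : cl (kk m') < T.s y := hcly
    have hyr : y ∉ L.run := fun hr => by
      rw [hcl y hr] at hcly'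
      exact absurd hcly' (not_lt.mpr (h.cl_anti (h.kk_le m')))
    have hyp : y ∈ L.pend := by
      by_contra hc
      rw [hB.dead y hyr hc] at hcly'
      exact absurd hcly' (not_lt.mpr zero_le)
    have hyo : y ∈ L.op := by
      by_contra hc
      exact absurd hcly' (not_lt.mpr (hB.new y hyp hc))
    rw [hrun, Finset.mem_sdiff, Finset.mem_sdiff, hS, mem_nbh] at hw
    by_contra hc
    refine hw.1.2 ⟨y, Finset.mem_inter.mpr ⟨hyo, hyp⟩, ?_⟩
    rw [h.geo.comm]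
    exact not_lt.mp hc
  · obtain ⟨e1, e2⟩ := hout y h1 h2
    exact hB.dead y e1 e2
  · rw [hop, Finset.mem_union, not_or] at h2
    rw [hpend, Finset.mem_union, Finset.mem_union, Finset.mem_inter (s₁ := L.run \ S),
      Finset.mem_sdiff] at h1
    show T.s y ≤ cl (kk (n + 1))
    have hyr : y ∈ L.run := by tauto
    rw [hcl y hyr]
  · have hyp : y ∉ L.pend := by
      intro hc
      refine hy ?_
      rw [hpend]
      exact Finset.mem_union_left _ (Finset.mem_union_left _ hc)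
    exact hB.tru y hyp

end Pool.Agent.ANP.H16
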