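import Pool.Agent.Helper16_ANP.PrtB

/-! The main induction of the protocol, part 3: one stage. -/

set_option autoImplicit false

open MeasureTheory ProbabilityTheory

open scoped ENNReal NNReal BigOperators

noncomputable section

namespace Pool.Agent.ANP.H16

variable {X : Type} [Fintype X] [DecidableEq X]
  {Γ : Geo X} {d : ℕ} {o : X} {F : Set (X → ℝ)} {th : ℝ≥0} {kk : ℕ → ℕ} {cl : ℕ → ℝ≥0}
  {Kn Dn : ℕ → ℕ} {p π : ℕ → ℝ} {LI : ℕ → Lb X → Prop}

/-- the value of the coins -/
def vv (Γ : Geo X) (o : X) (x : ℕ × X → ℝ) : ℝ := val Γ.ch Γ.J (Γ.N + 2) (Γ.near o) (1 / 4) x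

/-- the sites of the processed blocks; `W` = the blocks which are not yet processed -/
def Pw (Γ : Geo X) (n : ℕ) (W : Finset X) : Finset X := {y | Γ.bl n y ∉ W}

theorem mem_Pw (n : ℕ) (W : Finset X) (y : X) : y ∈ Pw Γ n W ↔ Γ.bl n y ∉ W := by simp [Pw]

theorem Pw_empty (n : ℕ) : Pw Γ n ∅ = Finset.univ := by
  ext y; simp [mem_Pw]

theorem Pw_insert {n : ℕ} {W : Finset X} {B : X} (hB : B ∉ W) :
    Pw Γ n (insert B W) ∪ Γ.blk n B = Pw Γ n W := by
  ext y
  rw [Finset.mem_union, mem_Pw, mem_Pw, mem_blk, Finset.mem_insert, not_or]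
  constructor
  · rintro (h | h)
    · exact h.2
    · rw [h]; exact hB
  · intro h
    by_cases h1 : Γ.bl n y = B
    · exact Or.inr h1
    · exact Or.inl ⟨h1, h⟩

theorem Pw_disj {n : ℕ} {W : Finset X} {B : X} :
    Disjoint (Pw Γ n (insert B W)) (Γ.blk n B) := by
  rw [Finset.disjoint_left]
  intro y hy hy2
  rw [mem_Pw, Finset.mem_insert, not_or] at hy
  rw [mem_blk] at hy2
  exact hy.1 hy2

/-- during a stage -/
theorem stage_mid (h : Pr Γ d o F th kk cl Kn Dn p π LI) (A : Ana Γ d o F th kk cl Kn Dn p)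
    {n k : ℕ} (hn : n ≤ Γ.N) (hk1 : kk n ≤ k) (hk2 : k < kk (n + 1))
    (next : ∀ (T : Cfg X) (L : Lb X) (a : X → ℝ) (r : X → ℝ≥0) (x : ℕ × X → ℝ),
      Bs Γ kk cl Dn π LI n (k + 1) ∅ T L a r x → A.HS n (k + 1) T L.run →
      (∀ B, Γ.bl n B = B → B ∉ L.bad n →
        p n * ((kk (n + 1) : ℝ) - (k + 1) + (Γ.L n : ℝ) ^ d) ≤ x (n, B)) →
      Win F a r (vv Γ o x))
    (T₀ : Cfg X) (run₀ : Finset X) (hHS : A.HS n k T₀ run₀) (hFc : Fc Γ kk cl Dn n k ∅ T₀ run₀)
    (W : Finset X) :
    (∀ B ∈ W, Γ.bl n B = B) →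
    ∀ (T : Cfg X) (L : Lb X) (a : X → ℝ) (r : X → ℝ≥0) (x : ℕ × X → ℝ),
      Bs Γ kk cl Dn π LI n k (Pw Γ n W) T L a r x → A.HM n k T₀ run₀ (Pw Γ n W) T L.run →
      (∀ B, Γ.bl n B = B → B ∉ L.bad n →
        p n * ((kk (n + 1) : ℝ) - (k + 1) + (Γ.L n : ℝ) ^ d + if B ∈ W then 1 else 0) ≤
          x (n, B)) →
      Win F a r (vv Γ o x) := by
  induction W using Finset.induction_on with
  | empty =>
    intro _ T L a r x hB hM hc
    rw [Pw_empty] at hB hM
    obtain ⟨m, hm⟩ := A.fin n k T₀ run₀ T L.run hn hk1 hk2 hHS hFc hB.fc hM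
    refine next (T.rg m) L a r x (hB.stage m) hm fun B h1 h2 => ?_
    have := hc B h1 h2
    rw [if_neg (Finset.notMem_empty B), add_zero] at this
    exact this
  | insert B W hBW ih =>
    intro hW T L a r x hB hM hc
    have hBB : Γ.bl n B = B := hW B (Finset.mem_insert_self B W)
    have hW' : ∀ B ∈ W, Γ.bl n B = B := fun C hC => hW C (Finset.mem_insert_of_mem hC)
    have hPP := Pw_insert (Γ := Γ) (n := n) hBW
    have hdis := Pw_disj (Γ := Γ) (n := n) (W := W) (B := B)
    have hPsub : Pw Γ n (insert B W) ⊆ Pw Γ n W := by rw [← hPP]; exact Finset.subset_union_left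
    have hp0 := h.p0 n
    by_cases hBb : B ∈ L.bad n
    · -- the block is bad: skip
      have hfz := (h.fac n L hB.li).frz
      have hd' : ∀ y ∈ L.run, y ∈ Pw Γ n W → y ∈ Pw Γ n (insert B W) := by
        intro y hy hy2
        rw [← hPP, Finset.mem_union] at hy2
        rcases hy2 with h1 | h1
        · exact h1
        · exact absurd (blk_sub_enl h.geo hBb 1 h1) (Finset.disjoint_left.mp hfz hy)
      have hB' := hB.skip h hk1 hPsub hd'
      refine ih hW' T L a r x hB' ?_ fun C h1 h2 => ?_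
      · exact A.mmon n k T₀ run₀ _ _ T L.run L.run hPsub (Finset.Subset.refl _) hB.fc hB'.fc hM
      · refine le_trans (mul_le_mul_of_nonneg_left ?_ hp0) (hc C h1 h2)
        by_cases hC : C ∈ W
        · rw [if_pos hC, if_pos (Finset.mem_insert_of_mem hC)]
        · rw [if_neg hC]
          split_ifs <;> linarith
    · -- a trial
      set U := L.run ∩ Γ.blk n B with hU
      have hkk : (k : ℝ) + 1 ≤ kk (n + 1) := by exact_mod_cast hk2
      have hL0 : (0 : ℝ) ≤ (Γ.L n : ℝ) ^ d := by positivity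
      have hpx : p n ≤ x (n, B) := by
        have h1 := hc B hBB hBb
        rw [if_pos (Finset.mem_insert_self B W)] at h1
        refine le_trans ?_ h1
        have h2 := mul_le_mul_of_nonneg_left
          (by linarith : (1 : ℝ) ≤ (kk (n + 1) : ℝ) - (k + 1) + (Γ.L n : ℝ) ^ d + 1) hp0
        linarith
      have hτ : ∀ y, T.hv th U y ≤ r y := by
        intro y
        unfold Cfg.hv
        split_ifs with hy
        · have hyr : y ∈ L.run := (Finset.mem_inter.mp hy).1
          rw [(hB.tru y (hB.disj h hyr)).2]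
          exact mul_le_of_le_one_left zero_le tsub_le_self
        · exact zero_le
      refine win_trial (tree_ch Γ) hB.x0 (n, B) hp0 hpx (hB.x1 _) a r (T.hv th U) hτ F h.hF
        {ζ | ¬ A.HM n k T₀ run₀ (Pw Γ n (insert B W) ∪ Γ.blk n B) (T.hf th U ζ) L.run} ?_ ?_ ?_
      · exact A.flo n k T₀ run₀ _ T L.run B hn hk1 hk2 hBB hdis hHS hFc hB.fc hM
      · intro ζ hζ hR
        rw [Set.mem_setOf_eq, not_not, hPP] at hR
        have hB' := hB.upd h hBb hdis hpx ζ hζ
        rw [hPP] at hB'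
        refine ih hW' (T.hf th U ζ) L _ _ _ hB' hR fun C h1 h2 => ?_
        have h3 := hc C h1 h2
        by_cases hCB : C = B
        · subst hCB
          rw [Function.update_self, if_neg hBW]
          rw [if_pos (Finset.mem_insert_self C W)] at h3
          linarith
        · rw [Function.update_of_ne (by simpa using hCB)]
          refine le_trans (mul_le_mul_of_nonneg_left ?_ hp0) h3
          by_cases hC : C ∈ W
          · rw [if_pos hC, if_pos (Finset.mem_insert_of_mem hC)]
          · rw [if_neg hC]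
            split_ifs <;> linarith
      · intro ζ hζ
        have hζ' : ∀ y, y ∉ U → ζ y = 0 ∧ T.hv th U y = 0 := fun y hy => by
          have e : T.hv th U y = 0 := by unfold Cfg.hv; rw [if_neg hy]
          exact ⟨hζ y e, e⟩
        have hsb : Γ.blk n B ⊆ Γ.enl n {B} 1 := blk_sub_enl h.geo (Finset.mem_singleton_self B) 1
        have hB' := hB.rej h (a' := fun y => a y + ζ y) (r' := fun y => r y - T.hv th U y) hk1 hBB
          hPsub (fun y _ hy hy2 => by
            rw [← hPP, Finset.mem_union] at hy2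
            rcases hy2 with h1 | h1
            · exact h1
            · exact absurd (hsb h1) hy)
          (fun y _ hy => by
            obtain ⟨e1, e2⟩ := hζ' y fun hU' => hy (hsb (Finset.mem_inter.mp hU').2)
            rw [e1, e2, add_zero, tsub_zero]
            exact ⟨rfl, rfl⟩)
          (fun y _ hy => by
            obtain ⟨e1, e2⟩ := hζ' y fun hU' => hy (Finset.mem_inter.mp hU').1
            rw [e1, e2, add_zero, tsub_zero]
            exact ⟨rfl, rfl⟩)
        refine ih hW' T (L.add Γ n {B}) _ _ _ hB' ?_ fun C h1 h2 => ?_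
        · exact A.mmon n k T₀ run₀ _ _ T L.run _ hPsub Finset.sdiff_subset hB.fc hB'.fc hM
        · have hbad : (L.add Γ n {B}).bad n = L.bad n ∪ {B} := by
            show Function.update L.bad n (L.bad n ∪ {B}) n = _
            rw [Function.update_self]
          rw [hbad, Finset.mem_union, Finset.mem_singleton, not_or] at h2
          rw [Function.update_of_ne (by simpa using h2.2)]
          refine le_trans (mul_le_mul_of_nonneg_left ?_ hp0) (hc C h1 h2.1)
          by_cases hC : C ∈ W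
          · rw [if_pos hC, if_pos (Finset.mem_insert_of_mem hC)]
          · rw [if_neg hC]
            split_ifs <;> linarith

/-- one stage -/
theorem stage_step (h : Pr Γ d o F th kk cl Kn Dn p π LI) (A : Ana Γ d o F th kk cl Kn Dn p)
    {n k : ℕ} (hn : n ≤ Γ.N) (hk1 : kk n ≤ k) (hk2 : k < kk (n + 1))
    (next : ∀ (T : Cfg X) (L : Lb X) (a : X → ℝ) (r : X → ℝ≥0) (x : ℕ × X → ℝ),
      Bs Γ kk cl Dn π LI n (k + 1) ∅ T L a r x → A.HS n (k + 1) T L.run →
      (∀ B, Γ.bl n B = B → B ∉ L.bad n →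
        p n * ((kk (n + 1) : ℝ) - (k + 1) + (Γ.L n : ℝ) ^ d) ≤ x (n, B)) →
      Win F a r (vv Γ o x))
    (T : Cfg X) (L : Lb X) (a : X → ℝ) (r : X → ℝ≥0) (x : ℕ × X → ℝ)
    (hB : Bs Γ kk cl Dn π LI n k ∅ T L a r x) (hHS : A.HS n k T L.run)
    (hc : ∀ B, Γ.bl n B = B → B ∉ L.bad n →
        p n * ((kk (n + 1) : ℝ) - k + (Γ.L n : ℝ) ^ d) ≤ x (n, B)) :
    Win F a r (vv Γ o x) := by
  have hP : Pw Γ n (Finset.univ.filter fun B => Γ.bl n B = B) = ∅ := by
    ext y
    simp [mem_Pw, h.geo.idem]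
  refine stage_mid h A hn hk1 hk2 next T L.run hHS hB.fc
    (Finset.univ.filter fun B => Γ.bl n B = B) (fun B hB => by simpa using hB) T L a r x
    (by rw [hP]; exact hB) ?_ fun B h1 h2 => ?_
  · rw [hP]
    exact A.beg n k T L.run hn hk1 hk2 hB.fc hHS
  · refine le_trans (le_of_eq ?_) (hc B h1 h2)
    rw [if_pos (by simpa using h1)]
    ring

end Pool.Agent.ANP.H16
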