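import Pool.Agent.ANP.Defs

/-! The multilinear function of the coins. -/

set_option autoImplicit false

open MeasureTheory ProbabilityTheory

open scoped ENNReal NNReal BigOperators

noncomputable section

namespace Pool.Agent.ANP.H16

variable {I : Type} [DecidableEq I]

theorem phi_insert (U : Finset I) (i : I) (hi : i ∉ U) (fail : Finset I → Prop) (x : I → ℝ) :
    Phi (insert i U) fail x =
      (1 - x i) * Phi U fail x + x i * Phi U (fun ω => fail (insert i ω)) x := by
  classical
  unfold Phi
  rw [Finset.sum_powerset_insert hi, Finset.mul_sum, Finset.mul_sum]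
  congr 1
  · refine Finset.sum_congr rfl fun ω hω => ?_
    have hiω : i ∉ ω := fun h => hi (Finset.mem_powerset.mp hω h)
    have h1 : insert i U \ ω = insert i (U \ ω) := Finset.insert_sdiff_of_notMem U hiω
    have h2 : i ∉ U \ ω := fun h => hi (Finset.mem_sdiff.mp h).1
    rw [h1, Finset.prod_insert h2]
    ring
  · refine Finset.sum_congr rfl fun ω hω => ?_
    have hiω : i ∉ ω := fun h => hi (Finset.mem_powerset.mp hω h)
    have h1 : insert i U \ insert i ω = U \ ω := by
      ext j
      simp only [Finset.mem_sdiff, Finset.mem_insert, not_or]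
      constructor
      · rintro ⟨h | h, hj, hj2⟩
        · exact absurd h hj
        · exact ⟨h, hj2⟩
      · rintro ⟨h, hj2⟩
        exact ⟨Or.inr h, fun h3 => hi (h3 ▸ h), hj2⟩
    rw [h1, Finset.prod_insert hiω]
    ring

theorem phi_congr (U : Finset I) (fail fail' : Finset I → Prop) (x y : I → ℝ)
    (hxy : ∀ i ∈ U, x i = y i) (hf : ∀ ω, ω ⊆ U → (fail ω ↔ fail' ω)) :
    Phi U fail x = Phi U fail' y := by
  classical
  unfold Phi
  refine Finset.sum_congr rfl fun ω hω => ?_
  have hωU := Finset.mem_powerset.mp hω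
  rw [Finset.prod_congr rfl fun i hi => hxy i (hωU hi),
    Finset.prod_congr rfl fun i hi => show 1 - x i = 1 - y i by
      rw [hxy i (Finset.mem_sdiff.mp hi).1]]
  simp only [hf ω hωU]

theorem phi_mono_fail (U : Finset I) (fail fail' : Finset I → Prop) (x : I → ℝ)
    (hx : ∀ i ∈ U, 0 ≤ x i ∧ x i ≤ 1) (hf : ∀ ω, ω ⊆ U → fail ω → fail' ω) :
    Phi U fail x ≤ Phi U fail' x := by
  classical
  unfold Phi
  refine Finset.sum_le_sum fun ω hω => ?_
  have hωU := Finset.mem_powerset.mp hω
  have hw : 0 ≤ (∏ i ∈ ω, x i) * ∏ i ∈ U \ ω, (1 - x i) :=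
    mul_nonneg (Finset.prod_nonneg fun i hi => (hx i (hωU hi)).1)
      (Finset.prod_nonneg fun i hi => sub_nonneg.mpr (hx i (Finset.mem_sdiff.mp hi).1).2)
  refine mul_le_mul_of_nonneg_left ?_ hw
  by_cases h : fail ω
  · rw [if_pos h, if_pos (hf ω hωU h)]
  · rw [if_neg h]
    split_ifs <;> norm_num

theorem phi_true (U : Finset I) (x : I → ℝ) : Phi U (fun _ => True) x = 1 := by
  classical
  unfold Phi
  simp only [if_true, mul_one]
  have h := Finset.prod_add (fun i => x i) (fun i => 1 - x i) U
  rw [← h]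
  simp

theorem phi_nonneg (U : Finset I) (fail : Finset I → Prop) (x : I → ℝ)
    (hx : ∀ i ∈ U, 0 ≤ x i ∧ x i ≤ 1) : 0 ≤ Phi U fail x := by
  classical
  unfold Phi
  refine Finset.sum_nonneg fun ω hω => ?_
  have hωU := Finset.mem_powerset.mp hω
  refine mul_nonneg (mul_nonneg (Finset.prod_nonneg fun i hi => (hx i (hωU hi)).1)
      (Finset.prod_nonneg fun i hi => sub_nonneg.mpr (hx i (Finset.mem_sdiff.mp hi).1).2)) ?_
  split_ifs <;> norm_num

theorem phi_le_one (U : Finset I) (fail : Finset I → Prop) (x : I → ℝ)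
    (hx : ∀ i ∈ U, 0 ≤ x i ∧ x i ≤ 1) : Phi U fail x ≤ 1 := by
  rw [← phi_true U x]
  exact phi_mono_fail U fail _ x hx fun _ _ _ => trivial

/-- the two coefficients of a coin -/
theorem phi_update (U : Finset I) (i : I) (hi : i ∈ U) (fail : Finset I → Prop) (x : I → ℝ) (t : ℝ) :
    Phi U fail (Function.update x i t) =
      (1 - t) * Phi (U.erase i) fail x +
        t * Phi (U.erase i) (fun ω => fail (insert i ω)) x := by
  have h := phi_insert (U.erase i) i (Finset.notMem_erase i U) fail (Function.update x i t)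
  rw [Finset.insert_erase hi, Function.update_self] at h
  rw [h]
  have hc : ∀ j ∈ U.erase i, Function.update x i t j = x j := fun j hj => by
    rw [Function.update_of_ne (Finset.ne_of_mem_erase hj)]
  rw [phi_congr (U.erase i) fail fail _ x hc fun _ _ => Iff.rfl,
    phi_congr (U.erase i) (fun ω => fail (insert i ω)) (fun ω => fail (insert i ω)) _ x hc
      fun _ _ => Iff.rfl]

theorem phi_update_notMem (U : Finset I) (i : I) (hi : i ∉ U) (fail : Finset I → Prop) (x : I → ℝ)
    (t : ℝ) : Phi U fail (Function.update x i t) = Phi U fail x := by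
  refine phi_congr U fail fail _ x (fun j hj => ?_) fun _ _ => Iff.rfl
  rw [Function.update_of_ne]
  rintro rfl
  exact hi hj

/-- affine in each coin -/
theorem phi_affine (U : Finset I) (i : I) (fail : Finset I → Prop) (x : I → ℝ) (t : ℝ) :
    Phi U fail (Function.update x i t) =
      (1 - t) * Phi U fail (Function.update x i 0) + t * Phi U fail (Function.update x i 1) := by
  by_cases hi : i ∈ U
  · rw [phi_update U i hi, phi_update U i hi, phi_update U i hi]
    ring
  · rw [phi_update_notMem U i hi, phi_update_notMem U i hi, phi_update_notMem U i hi]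
    ring

theorem phi_coef (U : Finset I) (i : I) (fail : Finset I → Prop) (hM : Mon fail) (x : I → ℝ)
    (hx : ∀ j ∈ U, 0 ≤ x j ∧ x j ≤ 1) :
    Phi (U.erase i) fail x ≤ Phi (U.erase i) (fun ω => fail (insert i ω)) x := by
  refine phi_mono_fail _ _ _ x (fun j hj => hx j (Finset.mem_of_mem_erase hj)) fun ω _ h => ?_
  exact hM ω (insert i ω) (Finset.subset_insert i ω) h

/-- increasing in one coin -/
theorem phi_update_mono (U : Finset I) (i : I) (fail : Finset I → Prop) (hM : Mon fail) (x : I → ℝ)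
    (hx : ∀ j ∈ U, 0 ≤ x j ∧ x j ≤ 1) (s t : ℝ) (hst : s ≤ t) :
    Phi U fail (Function.update x i s) ≤ Phi U fail (Function.update x i t) := by
  by_cases hi : i ∈ U
  · rw [phi_update U i hi, phi_update U i hi]
    have := phi_coef U i fail hM x hx
    nlinarith
  · rw [phi_update_notMem U i hi, phi_update_notMem U i hi]

/-- increasing in all the coins -/
theorem phi_mono (U : Finset I) (fail : Finset I → Prop) (hM : Mon fail) (x y : I → ℝ)
    (hx : ∀ j ∈ U, 0 ≤ x j ∧ x j ≤ 1) (hy : ∀ j ∈ U, 0 ≤ y j ∧ y j ≤ 1)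
    (hxy : ∀ j ∈ U, x j ≤ y j) : Phi U fail x ≤ Phi U fail y := by
  induction U using Finset.induction_on generalizing fail with
  | empty =>
    refine le_of_eq (phi_congr ∅ fail fail x y (fun i hi => ?_) fun _ _ => Iff.rfl)
    exact absurd hi (Finset.notMem_empty i)
  | insert i U hi ih =>
    rw [phi_insert U i hi, phi_insert U i hi]
    have hx' : ∀ j ∈ U, 0 ≤ x j ∧ x j ≤ 1 := fun j hj => hx j (Finset.mem_insert_of_mem hj)
    have hy' : ∀ j ∈ U, 0 ≤ y j ∧ y j ≤ 1 := fun j hj => hy j (Finset.mem_insert_of_mem hj)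
    have hxy' : ∀ j ∈ U, x j ≤ y j := fun j hj => hxy j (Finset.mem_insert_of_mem hj)
    have h1 := ih fail hM hx' hy' hxy'
    have hM2 : Mon (fun ω => fail (insert i ω)) := fun ω ω' h hf =>
      hM _ _ (Finset.insert_subset_insert i h) hf
    have h2 := ih (fun ω => fail (insert i ω)) hM2 hx' hy' hxy'
    have h3 : Phi U fail y ≤ Phi U (fun ω => fail (insert i ω)) y :=
      phi_mono_fail _ _ _ y hy' fun ω _ h => hM ω (insert i ω) (Finset.subset_insert i ω) h
    obtain ⟨hx0, hx1⟩ := hx i (Finset.mem_insert_self i U)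
    obtain ⟨hy0, hy1⟩ := hy i (Finset.mem_insert_self i U)
    have hxyi := hxy i (Finset.mem_insert_self i U)
    nlinarith [mul_le_mul_of_nonneg_left h1 (sub_nonneg.mpr hx1),
      mul_le_mul_of_nonneg_left h2 hx0, mul_nonneg (sub_nonneg.mpr hxyi) (sub_nonneg.mpr h3)]

end Pool.Agent.ANP.H16
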