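import Pool.Agent.Helper16_ANP.AttB
import Pool.Agent.Helper72_ANP.Phi

/-! One trial: block update and attempt, against the value `min 1 (Phi + e0)`. -/

set_option autoImplicit false

open MeasureTheory ProbabilityTheory

open scoped ENNReal NNReal BigOperators

noncomputable section

namespace Pool.Agent.ANP.H16

section val

variable {Y : Type} [DecidableEq Y]

/-- the value function -/
def val (ch : ℕ → Y → Finset Y) (J N : ℕ) (near : ℕ → Finset Y) (e₀ : ℝ) (x : ℕ × Y → ℝ) : ℝ :=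
  min 1 (H72.Phi ch J N near x + e₀)

variable {ch : ℕ → Y → Finset Y} {J N : ℕ} {near : ℕ → Finset Y} {e₀ : ℝ}

theorem val_le_one (x : ℕ × Y → ℝ) : val ch J N near e₀ x ≤ 1 := min_le_left _ _

theorem val_nonneg {x : ℕ × Y → ℝ} (h0 : ∀ c, 0 ≤ x c) (he : 0 ≤ e₀) :
    0 ≤ val ch J N near e₀ x :=
  le_min zero_le_one (add_nonneg (H72.phi_nonneg h0 N near) he)

theorem val_mono {x y : ℕ × Y → ℝ} (h0 : ∀ c, 0 ≤ x c) (h : ∀ c, x c ≤ y c) :
    val ch J N near e₀ x ≤ val ch J N near e₀ y :=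
  min_le_min le_rfl (add_le_add (H72.phi_mono h0 h N near) le_rfl)

/-- the value is one as soon as a block which matters is bad -/
theorem val_one {x : ℕ × Y → ℝ} (h0 : ∀ c, 0 ≤ x c) (he : 0 ≤ e₀) {n : ℕ} (hn : n < N) {B : Y}
    (hB : B ∈ near n) (h : 1 ≤ H72.QQ ch J x n B) : val ch J N near e₀ x = 1 := by
  have := H72.phi_one h0 hn hB h
  exact min_eq_left (by linarith)

theorem upd_nonneg {x : ℕ × Y → ℝ} (h0 : ∀ c, 0 ≤ x c) (c : ℕ × Y) {t : ℝ} (ht : 0 ≤ t) :
    ∀ d, 0 ≤ Function.update x c t d := by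
  intro d
  by_cases hd : d = c
  · subst hd; rw [Function.update_self]; exact ht
  · rw [Function.update_of_ne hd]; exact h0 d

theorem upd_le {x : ℕ × Y → ℝ} (c : ℕ × Y) {s t : ℝ} (h : s ≤ t) :
    ∀ d, Function.update x c s d ≤ Function.update x c t d := by
  intro d
  by_cases hd : d = c
  · subst hd; rw [Function.update_self, Function.update_self]; exact h
  · rw [Function.update_of_ne hd, Function.update_of_ne hd]

theorem val_step (hT : H72.Tree ch) {x : ℕ × Y → ℝ} (h0 : ∀ c, 0 ≤ x c) (c : ℕ × Y) {p : ℝ}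
    (hp : 0 ≤ p) (hp1 : p ≤ 1) (hpx : p ≤ x c) :
    (1 - p) * val ch J N near e₀ (Function.update x c (x c - p)) +
      p * val ch J N near e₀ (Function.update x c 1) ≤ val ch J N near e₀ x := by
  have h := H72.coin_step (J := J) hT h0 N near c hp hpx
  unfold val
  set A := H72.Phi ch J N near (Function.update x c (x c - p))
  set B := H72.Phi ch J N near (Function.update x c 1)
  have hq : 0 ≤ 1 - p := sub_nonneg.mpr hp1
  refine le_min ?_ ?_
  · have h1 := mul_le_mul_of_nonneg_left (min_le_left 1 (A + e₀)) hq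
    have h2 := mul_le_mul_of_nonneg_left (min_le_left 1 (B + e₀)) hp
    linarith
  · have h1 := mul_le_mul_of_nonneg_left (min_le_right 1 (A + e₀)) hq
    have h2 := mul_le_mul_of_nonneg_left (min_le_right 1 (B + e₀)) hp
    nlinarith

end val

variable {X : Type} [Fintype X] {Y : Type} [DecidableEq Y]
variable {ch : ℕ → Y → Finset Y} {J N : ℕ} {near : ℕ → Finset Y} {e₀ : ℝ}

theorem win_mono {F : Set (X → ℝ)} {a : X → ℝ} {r : X → ℝ≥0} {e e' : ℝ} (h : Win F a r e)
    (he : e ≤ e') : Win F a r e' := le_trans h he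

theorem win_one (F : Set (X → ℝ)) (a : X → ℝ) (r : X → ℝ≥0) : Win F a r 1 :=
  measureReal_le_one

/-- noise which is seen, never a test -/
theorem win_noise (a : X → ℝ) (r τ : X → ℝ≥0) (hτ : ∀ x, τ x ≤ r x) (F : Set (X → ℝ))
    (hF : MeasurableSet F) (e : ℝ)
    (h : ∀ ζ : X → ℝ, (∀ x, τ x = 0 → ζ x = 0) →
      Win F (fun x => a x + ζ x) (fun x => r x - τ x) e) :
    Win F a r e := by
  have h1 := win_step a r τ hτ F hF ∅ 0 e e le_rfl le_rfl (by simp) (fun ζ hζ _ => h ζ hζ)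
    (fun ζ hζ => h ζ hζ)
  simpa using h1

/-- TRIAL: one noise, the set `R` of rejected noises has outer measure at most `p` -/
theorem win_trial (hT : H72.Tree ch) {x : ℕ × Y → ℝ} (h0 : ∀ c, 0 ≤ x c)
    (c : ℕ × Y) {p : ℝ} (hp : 0 ≤ p) (hpx : p ≤ x c) (hx1 : x c ≤ 1)
    (a : X → ℝ) (r τ : X → ℝ≥0) (hτ : ∀ x, τ x ≤ r x) (F : Set (X → ℝ)) (hF : MeasurableSet F)
    (R : Set (X → ℝ)) (hR : gm (fun _ => 0) τ R ≤ ENNReal.ofReal p)
    (h₁ : ∀ ζ : X → ℝ, (∀ x, τ x = 0 → ζ x = 0) → ζ ∉ R →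
      Win F (fun x => a x + ζ x) (fun x => r x - τ x)
        (val ch J N near e₀ (Function.update x c (x c - p))))
    (h₂ : ∀ ζ : X → ℝ, (∀ x, τ x = 0 → ζ x = 0) →
      Win F (fun x => a x + ζ x) (fun x => r x - τ x)
        (val ch J N near e₀ (Function.update x c 1))) :
    Win F a r (val ch J N near e₀ x) := by
  have hp1 : p ≤ 1 := hpx.trans hx1
  have hle : val ch J N near e₀ (Function.update x c (x c - p)) ≤
      val ch J N near e₀ (Function.update x c 1) :=
    val_mono (upd_nonneg h0 c (sub_nonneg.mpr hpx)) (upd_le c (by linarith))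
  have h := win_step a r τ hτ F hF R p _ _ hle hp hR h₁ h₂
  refine win_mono h ?_
  have h2 := val_step (J := J) (N := N) (near := near) (e₀ := e₀) hT h0 c hp hp1 hpx
  linarith

/-- ATTEMPT: as `win_trial` for an adaptive attempt which is rolled back if it fails -/
theorem win_att [DecidableEq X] (hT : H72.Tree ch) {x : ℕ × Y → ℝ} (h0 : ∀ c, 0 ≤ x c)
    (he₀ : 0 ≤ e₀) (c : ℕ × Y) {p : ℝ} (hp : 0 ≤ p) (hpx : p ≤ x c) (hx1 : x c ≤ 1)
    (R Q : Finset X) (v : X → ℝ) (Ok : Cfg X → Prop) (F : Set (X → ℝ)) (hF : MeasurableSet F)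
    (P : Cfg X → (X → ℝ) → (X → ℝ≥0) → Prop)
    (hle : ∀ T a r, P T a r → ∀ x ∈ R, T.s x ≤ r x)
    (hap : ∀ T a r b, b ∈ Q → P T a r → P (T.rv {b} v) a r)
    (hkl : ∀ T a r (D : Finset X) (ζ : X → ℝ), D ⊆ R → (∀ x ∈ D, 0 < T.s x) →
      (∀ x, x ∉ D → ζ x = 0) → P T a r →
      P (T.kl D ζ) (fun x => a x + ζ x) (fun x => r x - T.kv D x))
    (T : Cfg X) (q : ℝ≥0∞) (h : Att R Q v Ok T q) (hqp : q ≤ ENNReal.ofReal p)
    (a : X → ℝ) (r : X → ℝ≥0) (hP : P T a r)
    (h₁ : ∀ T a r, Ok T → P T a r → Win F a r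
      (val ch J N near e₀ (Function.update x c (x c - p))))
    (h₂ : ∀ T a r, P T a r → Win F a r (val ch J N near e₀ (Function.update x c 1))) :
    Win F a r (val ch J N near e₀ x) := by
  have hp1 : p ≤ 1 := hpx.trans hx1
  have hle' : val ch J N near e₀ (Function.update x c (x c - p)) ≤
      val ch J N near e₀ (Function.update x c 1) :=
    val_mono (upd_nonneg h0 c (sub_nonneg.mpr hpx)) (upd_le c (by linarith))
  have h3 := att_gen_real R Q v Ok F hF _ _
    (val_nonneg (upd_nonneg h0 c (sub_nonneg.mpr hpx)) he₀) hle' P hle hap hkl h₁ h₂ T q h p hp hqp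
    a r hP
  refine win_mono h3 ?_
  have h2 := val_step (J := J) (N := N) (near := near) (e₀ := e₀) hT h0 c hp hp1 hpx
  linarith

end Pool.Agent.ANP.H16
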