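import Pool.Agent.ANP.Stmts
import Pool.Agent.Helper16_ANP.Trial
import Pool.Agent.Helper16_ANP.PhiB

/-! Rows GST WSQ WST ATW PHI of the block ANP. -/

set_option autoImplicit false

open MeasureTheory ProbabilityTheory

open scoped ENNReal NNReal BigOperators

noncomputable section

namespace Pool.Agent.ANP.H16

theorem gst : GstStmt := by
  intro X _ r F hF
  refine ⟨?_, fun a τ hτ => gm_step' a r τ hτ F hF⟩
  have h := gm_meas_shift (fun _ : X => (0 : ℝ)) r F hF
  simpa only [zero_add] using h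

theorem min_one_meas {α : Type} [MeasurableSpace α] {q : α → ℝ≥0∞} (hq : Measurable q) :
    Measurable fun ζ => (min (q ζ) 1).toReal :=
  (hq.min measurable_const).ennreal_toReal

theorem wsq : WsqStmt := by
  intro X _ F hF a τ r q e₁ e₂ hτ he₁ he hq h
  unfold Win
  rw [gm_step_real a r τ hτ F hF]
  set μ := gm (fun _ : X => (0 : ℝ)) τ with hμ
  have hint : Integrable (fun ζ => (min (q ζ) 1).toReal) μ := by
    refine Integrable.of_bound (min_one_meas hq).aestronglyMeasurable 1 ?_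
    filter_upwards with ζ
    rw [Real.norm_eq_abs, abs_of_nonneg ENNReal.toReal_nonneg]
    exact ENNReal.toReal_le_of_le_ofReal zero_le_one (by rw [ENNReal.ofReal_one]; exact min_le_right _ _)
  have hint2 : Integrable (fun ζ => (min (q ζ) 1).toReal * (e₂ - e₁)) μ := hint.mul_const _
  have h1 : ∫ ζ, (gm (fun x => a x + ζ x) (fun x => r x - τ x)).real F ∂μ ≤
      ∫ ζ, (e₁ + (min (q ζ) 1).toReal * (e₂ - e₁)) ∂μ :=
    integral_mono (gm_real_int a _ τ F hF) ((integrable_const e₁).add hint2) fun ζ => h ζ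
  have h2 : ∫ ζ, (e₁ + (min (q ζ) 1).toReal * (e₂ - e₁)) ∂μ =
      e₁ + (∫ ζ, (min (q ζ) 1).toReal ∂μ) * (e₂ - e₁) := by
    rw [integral_add (integrable_const e₁) hint2, integral_const, integral_mul_const]
    simp
  have h3 : ∫ ζ, (min (q ζ) 1).toReal ∂μ = (∫⁻ ζ, min (q ζ) 1 ∂μ).toReal := by
    rw [integral_toReal (hq.min measurable_const).aemeasurable]
    filter_upwards with ζ
    exact lt_of_le_of_lt (min_le_right _ _) ENNReal.one_lt_top
  have h4 : (∫⁻ ζ, min (q ζ) 1 ∂μ) ≤ min (∫⁻ ζ, q ζ ∂μ) 1 := by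
    refine le_min (lintegral_mono fun ζ => min_le_left _ _) ?_
    calc ∫⁻ ζ, min (q ζ) 1 ∂μ ≤ ∫⁻ _, 1 ∂μ := lintegral_mono fun ζ => min_le_right _ _
      _ = 1 := by simp
  have h5 : (∫⁻ ζ, min (q ζ) 1 ∂μ).toReal ≤ (min (∫⁻ ζ, q ζ ∂μ) 1).toReal :=
    ENNReal.toReal_mono (ne_top_of_le_ne_top ENNReal.one_ne_top (min_le_right _ _)) h4
  rw [h2, h3] at h1
  have h6 := mul_le_mul_of_nonneg_right h5 (sub_nonneg.mpr he)
  linarith

theorem wst : WstStmt := by
  intro X _ F hF a τ r R p e₁ e₂ hτ hp _ he hR h₁ h₂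
  exact win_step a r τ hτ F hF R p e₁ e₂ he hp hR (fun ζ _ hζ => h₁ ζ hζ) fun ζ _ => h₂ ζ

theorem atw : AtwStmt := by
  intro X _ _ F hF R Q Ok T a r p e₁ e₂ hRQ hp he₁ he hR hAtt h₁ h₂
  -- reveal `Q`
  refine win_noise a r (fun x => if x ∈ Q then r x else 0) ?_ F hF _ ?_
  · intro x
    split_ifs
    · exact le_rfl
    · exact zero_le
  intro ζ hζ
  set v : X → ℝ := fun x => a x + ζ x with hv
  have hζQ : ∀ x, x ∉ Q → ζ x = 0 := by
    intro x hx
    refine hζ x ?_
    rw [if_neg hx]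
  have hQR : ∀ x, x ∈ R → x ∉ Q := fun x hx hq => Finset.disjoint_left.mp hRQ hx hq
  refine att_gen_real R Q v (Ok v) F hF e₁ e₂ he₁ he
    (fun T' a' r' => T'.mb = T.mb ∧ (∀ x ∈ R, a' x = T'.V x ∧ r' x = T'.s x) ∧
      (∀ x ∈ R, T'.s x = 0 ∨ T'.V x = T.V x ∧ T'.s x = T.s x) ∧
      (∀ x ∈ Q, a' x = v x ∧ r' x = 0) ∧
      (∀ x, x ∉ Q → x ∉ R → a' x = a x ∧ r' x = r x ∧ T'.V x = T.V x ∧ T'.s x = T.s x))
    ?_ ?_ ?_ ?_ ?_ T (ENNReal.ofReal p) (hAtt v) p hp le_rfl _ _ ?_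
  · intro T' a' r' hP x hx
    exact le_of_eq (hP.2.1 x hx).2.symm
  · intro T' a' r' b hb ⟨p1, p2, p3, p4, p5⟩
    have hbR : b ∉ R := fun h => hQR b h hb
    have hV : ∀ x, x ≠ b → (T'.rv {b} v).V x = T'.V x := fun x hx => by
      show (if x ∈ ({b} : Finset X) then v x else T'.V x) = _
      rw [if_neg (by simpa using hx)]
    have hs : ∀ x, x ≠ b → (T'.rv {b} v).s x = T'.s x := fun x hx => by
      show (if x ∈ ({b} : Finset X) then 0 else T'.s x) = _
      rw [if_neg (by simpa using hx)]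
    have hne : ∀ x, x ∈ R → x ≠ b := fun x hx h => hbR (h ▸ hx)
    have hne2 : ∀ x, x ∉ Q → x ≠ b := fun x hx h => hx (h ▸ hb)
    refine ⟨p1, fun x hx => ?_, fun x hx => ?_, p4, fun x hx hx2 => ?_⟩
    · rw [hV x (hne x hx), hs x (hne x hx)]; exact p2 x hx
    · rw [hV x (hne x hx), hs x (hne x hx)]; exact p3 x hx
    · rw [hV x (hne2 x hx), hs x (hne2 x hx)]; exact p5 x hx hx2
  · intro T' a' r' D ξ hD _ hξ ⟨p1, p2, p3, p4, p5⟩
    have hV : ∀ x, x ∉ D → (T'.kl D ξ).V x = T'.V x := fun x hx => by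
      show (if x ∈ D then T'.V x + ξ x else T'.V x) = _
      rw [if_neg hx]
    have hs : ∀ x, x ∉ D → (T'.kl D ξ).s x = T'.s x := fun x hx => by
      show (if x ∈ D then 0 else T'.s x) = _
      rw [if_neg hx]
    have hV2 : ∀ x, x ∈ D → (T'.kl D ξ).V x = T'.V x + ξ x := fun x hx => by
      show (if x ∈ D then T'.V x + ξ x else T'.V x) = _
      rw [if_pos hx]
    have hs2 : ∀ x, x ∈ D → (T'.kl D ξ).s x = 0 := fun x hx => by
      show (if x ∈ D then 0 else T'.s x) = _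
      rw [if_pos hx]
    have hk : ∀ x, x ∉ D → T'.kv D x = 0 := fun x hx => by
      unfold Cfg.kv; rw [if_neg hx]
    have hk2 : ∀ x, x ∈ D → T'.kv D x = T'.s x := fun x hx => by
      unfold Cfg.kv; rw [if_pos hx]
    refine ⟨p1, fun x hx => ?_, fun x hx => ?_, fun x hx => ?_, fun x hx hx2 => ?_⟩ <;> beta_reduce
    · by_cases hd : x ∈ D
      · rw [hV2 x hd, hs2 x hd, hk2 x hd, (p2 x hx).1, (p2 x hx).2]
        exact ⟨rfl, tsub_self _⟩
      · rw [hV x hd, hs x hd, hk x hd, hξ x hd, add_zero, tsub_zero]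
        exact p2 x hx
    · by_cases hd : x ∈ D
      · exact Or.inl (hs2 x hd)
      · rw [hV x hd, hs x hd]; exact p3 x hx
    · have hd : x ∉ D := fun h => hQR x (hD h) hx
      rw [hk x hd, hξ x hd, add_zero, tsub_zero]
      exact p4 x hx
    · have hd : x ∉ D := fun h => hx2 (hD h)
      rw [hV x hd, hs x hd, hk x hd, hξ x hd, add_zero, tsub_zero]
      exact p5 x hx hx2
  · intro T' a' r' hOk ⟨p1, p2, p3, p4, p5⟩
    exact h₁ v T' a' r' hOk p1 p2 p3 p4 p5
  · intro T' a' r' ⟨_, _, _, _, p5⟩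
    exact h₂ a' r' fun x hx hx2 => ⟨(p5 x hx hx2).1, (p5 x hx hx2).2.1⟩
  · refine ⟨rfl, fun x hx => ?_, fun x hx => Or.inr ⟨rfl, rfl⟩, fun x hx => ?_, fun x hx hx2 => ?_⟩
    · have hq := hQR x hx
      show a x + ζ x = _ ∧ r x - (if x ∈ Q then r x else 0) = _
      rw [if_neg hq, hζQ x hq, add_zero, tsub_zero]
      exact hR x hx
    · refine ⟨rfl, ?_⟩
      show r x - (if x ∈ Q then r x else 0) = 0
      rw [if_pos hx]
      exact tsub_self _
    · refine ⟨?_, ?_, rfl, rfl⟩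
      · show a x + ζ x = a x
        rw [hζQ x hx, add_zero]
      · show r x - (if x ∈ Q then r x else 0) = r x
        rw [if_neg hx, tsub_zero]

theorem phi : PhiStmt := by
  classical
  intro I _ U fail hM
  refine ⟨fun x hx => ⟨phi_nonneg U fail x fun i _ => hx i, phi_le_one U fail x fun i _ => hx i⟩,
    fun x y hxy => ?_, fun x i u p hx hu hp hup => ?_, fun x ω hx hωU h1 hf => ?_⟩
  · refine phi_mono U fail hM x y (fun i _ => ⟨(hxy i).1, (hxy i).2.1.trans (hxy i).2.2⟩)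
      (fun i _ => ⟨(hxy i).1.trans (hxy i).2.1, (hxy i).2.2⟩) fun i _ => (hxy i).2.1
  · by_cases hi : i ∈ U
    · have hxx : Function.update x i (x i) = x := Function.update_eq_self i x
      have e : Phi U fail x = (1 - x i) * Phi (U.erase i) fail x +
          x i * Phi (U.erase i) (fun ω => fail (insert i ω)) x := by
        have := phi_update U i hi fail x (x i)
        rwa [hxx] at this
      rw [e, phi_update U i hi, phi_update U i hi]
      have hc := phi_coef U i fail hM x fun j _ => hx j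
      set A := Phi (U.erase i) fail x
      set B := Phi (U.erase i) (fun ω => fail (insert i ω)) x
      nlinarith [mul_nonneg (sub_nonneg.mpr hup) (sub_nonneg.mpr hc),
        mul_nonneg (mul_nonneg hu hp) (sub_nonneg.mpr hc)]
    · rw [phi_update_notMem U i hi, phi_update_notMem U i hi]
      linarith
  · rw [← phi_true U x]
    unfold Phi
    refine Finset.sum_congr rfl fun ω' hω' => ?_
    by_cases hs : ω ⊆ ω'
    · rw [if_pos (hM ω ω' hs hf), if_pos trivial]
    · obtain ⟨i, hi, hi'⟩ := Finset.not_subset.mp hs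
      have hz : ∏ i ∈ U \ ω', (1 - x i) = 0 := by
        refine Finset.prod_eq_zero (Finset.mem_sdiff.mpr ⟨hωU hi, hi'⟩) ?_
        rw [h1 i hi, sub_self]
      rw [hz, mul_zero, zero_mul, zero_mul]

end Pool.Agent.ANP.H16
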