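import Pool.Agent.ANP.StmtsD
import Pool.Agent.Helper16_ANP.Rows

/-! The main induction of the protocol, part 1: definitions and simple facts. -/

set_option autoImplicit false

open MeasureTheory ProbabilityTheory

open scoped ENNReal NNReal BigOperators

noncomputable section

namespace Pool.Agent.ANP.H16

section basic

variable {X : Type} [Fintype X] [DecidableEq X] (Γ : Geo X)

theorem mem_nbh (S : Finset X) (t : ℕ) (x : X) :
    x ∈ Γ.nbh S t ↔ ∃ y ∈ S, Γ.D x y ≤ t := by simp [Geo.nbh]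

theorem mem_blk (n : ℕ) (B x : X) : x ∈ Γ.blk n B ↔ Γ.bl n x = B := by simp [Geo.blk]

theorem mem_enl (n : ℕ) (𝓑 : Finset X) (k : ℕ) (x : X) :
    x ∈ Γ.enl n 𝓑 k ↔ ∃ y, Γ.bl n y ∈ 𝓑 ∧ Γ.D x y ≤ k * Γ.L n := by simp [Geo.enl]

theorem mem_comp (S : Finset X) (t : ℕ) (x y : X) :
    y ∈ Γ.comp S t x ↔
      Relation.ReflTransGen (fun u v => u ∈ S ∧ v ∈ S ∧ Γ.D u v ≤ t) x y ∧ y ∈ S := by
  simp [Geo.comp]

theorem mem_near (o : X) (n : ℕ) (B : X) : B ∈ Γ.near o n ↔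
    Γ.bl n B = B ∧ ∃ y, Γ.bl n y = B ∧ Γ.D o y ≤ 3 * Γ.ρ (n + 1) + 2 * Γ.L n := by
  simp [Geo.near]

theorem mem_ch (n : ℕ) (B b : X) : b ∈ Γ.ch n B ↔ Γ.bl n b = b ∧ Γ.bl (n + 1) b = B := by
  simp [Geo.ch]

theorem tree_ch : H72.Tree Γ.ch := by
  intro n B B' b h1 h2
  rw [mem_ch] at h1 h2
  rw [← h1.2, ← h2.2]

variable {Γ}

theorem self_comp {S : Finset X} {t : ℕ} {x : X} (h : x ∈ S) : x ∈ Γ.comp S t x :=
  (mem_comp Γ S t x x).mpr ⟨Relation.ReflTransGen.refl, h⟩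

theorem comp_sub {S : Finset X} {t : ℕ} {x y : X} (h : y ∈ Γ.comp S t x) : y ∈ S :=
  ((mem_comp Γ S t x y).mp h).2

/-- the links are symmetric -/
theorem link_symm {d : ℕ} (hG : GeoOk Γ d) {S : Finset X} {t : ℕ} {x y : X}
    (h : Relation.ReflTransGen (fun u v => u ∈ S ∧ v ∈ S ∧ Γ.D u v ≤ t) x y) :
    Relation.ReflTransGen (fun u v => u ∈ S ∧ v ∈ S ∧ Γ.D u v ≤ t) y x := by
  induction h with
  | refl => exact Relation.ReflTransGen.refl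
  | tail _ h2 ih =>
    refine Relation.ReflTransGen.head ⟨h2.2.1, h2.1, ?_⟩ ih
    rw [hG.comm]
    exact h2.2.2

/-- two components with a link between them are equal -/
theorem comp_eq {d : ℕ} (hG : GeoOk Γ d) {S : Finset X} {t : ℕ} {c z q x : X}
    (hq : q ∈ Γ.comp S t c) (hx : x ∈ Γ.comp S t z) (hD : Γ.D q x ≤ t) :
    Γ.comp S t c = Γ.comp S t z := by
  have h1 := ((mem_comp Γ S t c q).mp hq)
  have h2 := ((mem_comp Γ S t z x).mp hx)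
  have hcz : Relation.ReflTransGen (fun u v => u ∈ S ∧ v ∈ S ∧ Γ.D u v ≤ t) c z :=
    (h1.1.tail ⟨h1.2, h2.2, hD⟩).trans (link_symm hG h2.1)
  have hzc := link_symm hG hcz
  ext y
  rw [mem_comp, mem_comp]
  exact ⟨fun h => ⟨hzc.trans h.1, h.2⟩, fun h => ⟨hcz.trans h.1, h.2⟩⟩

theorem blk_sub_enl {d : ℕ} (hG : GeoOk Γ d) {n : ℕ} {B : X} {𝓑 : Finset X} (hB : B ∈ 𝓑) (k : ℕ) :
    Γ.blk n B ⊆ Γ.enl n 𝓑 k := by
  intro x hx
  rw [mem_blk] at hx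
  rw [mem_enl]
  refine ⟨x, by rw [hx]; exact hB, ?_⟩
  rw [hG.self]
  exact Nat.zero_le _

theorem enl_mono {n : ℕ} {𝓑 𝓑' : Finset X} (h : 𝓑 ⊆ 𝓑') (k : ℕ) :
    Γ.enl n 𝓑 k ⊆ Γ.enl n 𝓑' k := by
  intro x hx
  rw [mem_enl] at hx ⊢
  obtain ⟨y, hy, hD⟩ := hx
  exact ⟨y, h hy, hD⟩

end basic

/-! ### coins -/

section coin

variable {Y : Type} [DecidableEq Y] {ch : ℕ → Y → Finset Y} {J : ℕ}

theorem qq_upd {x : ℕ × Y → ℝ} {n : ℕ} {B : Y} {t : ℝ} : ∀ (j : ℕ) (B' : Y),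
    (j < n ∨ (j = n ∧ B' ≠ B)) →
    H72.QQ ch J (Function.update x (n, B) t) j B' = H72.QQ ch J x j B' := by
  intro j
  induction j with
  | zero =>
    intro B' h
    rw [H72.qq_zero, H72.qq_zero, Function.update_of_ne]
    rintro heq
    rw [Prod.mk.injEq] at heq
    rcases h with h | h
    · omega
    · exact h.2 heq.2
  | succ j ih =>
    intro B' h
    rw [H72.qq_succ, H72.qq_succ, Function.update_of_ne]
    · congr 1
      refine Finset.sum_congr rfl fun S _ => Finset.prod_congr rfl fun b _ => ih b (Or.inl ?_)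
      rcases h with h | h
      · omega
      · omega
    · rintro heq
      rw [Prod.mk.injEq] at heq
      rcases h with h | h
      · omega
      · exact h.2 heq.2

end coin

/-! ### the data and the invariant -/

section inv

variable {X : Type} [Fintype X] [DecidableEq X]

/-- the hypotheses of the main induction -/
structure Pr (Γ : Geo X) (d : ℕ) (o : X) (F : Set (X → ℝ)) (th : ℝ≥0) (kk : ℕ → ℕ) (cl : ℕ → ℝ≥0)
    (Kn Dn : ℕ → ℕ) (p π : ℕ → ℝ) (LI : ℕ → Lb X → Prop) : Prop where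
  hF : MeasurableSet F
  geo : GeoOk Γ d
  scl : Scl Γ d
  kks : ∀ n, kk n < kk (n + 1)
  th0 : 0 < th
  th1 : th < 1
  cls : ∀ k, cl (k + 1) = th * cl k
  cl0 : 0 < cl 0
  p0 : ∀ n, 0 ≤ p n
  pp : ∀ n, p n * ((kk (n + 1) : ℝ) - kk n + (Γ.L n : ℝ) ^ d) ≤ π n
  fac : ∀ n L, LI n L → LFac Γ d o Dn n L
  add : ∀ n L (𝓑 : Finset X), LI n L → (∀ B ∈ 𝓑, Γ.bl n B = B) → LI n (L.add Γ n 𝓑)
  die : ∀ n L x (K : Finset X), LI n L → x ∈ L.op → L.elig Γ n (L.cmp Γ n x) →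
        K ⊆ L.run ∩ Γ.nbh (L.cmp Γ n x) (Γ.ρ n) → K.card ≤ Kn n →
        LI n (L.die n K (L.cmp Γ n x))
  nxt : ∀ n L, LI n L → (∀ x ∈ L.op, ¬ L.elig Γ n (L.cmp Γ n x)) → LI (n + 1) (L.nxt Γ n)

/-- the invariant -/
structure Bs (Γ : Geo X) (kk : ℕ → ℕ) (cl : ℕ → ℝ≥0) (Dn : ℕ → ℕ) (π : ℕ → ℝ)
    (LI : ℕ → Lb X → Prop) (n k : ℕ) (P : Finset X) (T : Cfg X) (L : Lb X) (a : X → ℝ)
    (r : X → ℝ≥0) (x : ℕ × X → ℝ) : Prop where
  li : LI n L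
  badj : ∀ j, n < j → L.bad j = ∅
  opr : Disjoint L.op L.run
  x0 : ∀ c, 0 ≤ x c
  x1 : ∀ c, x c ≤ 1
  qq : ∀ j, ∀ B ∈ L.bad j, 1 ≤ H72.QQ Γ.ch Γ.J x j B
  fc : Fc Γ kk cl Dn n k P T L.run
  ppos : ∀ y ∈ L.pend, 0 < T.s y
  dead : ∀ y, y ∉ L.run → y ∉ L.pend → T.s y = 0
  new : ∀ y ∈ L.pend, y ∉ L.op → T.s y ≤ cl (kk n)
  tru : ∀ y, y ∉ L.pend → a y = T.V y ∧ r y = T.s y
  cj : ∀ j, n < j → ∀ B, π j ≤ x (j, B)

variable {Γ : Geo X} {d : ℕ} {o : X} {F : Set (X → ℝ)} {th : ℝ≥0} {kk : ℕ → ℕ} {cl : ℕ → ℝ≥0}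
  {Kn Dn : ℕ → ℕ} {p π : ℕ → ℝ} {LI : ℕ → Lb X → Prop}

theorem Pr.clpos (h : Pr Γ d o F th kk cl Kn Dn p π LI) : ∀ k, 0 < cl k := by
  intro k
  induction k with
  | zero => exact h.cl0
  | succ k ih => rw [h.cls]; exact mul_pos h.th0 ih

theorem Pr.cl_succ_le (h : Pr Γ d o F th kk cl Kn Dn p π LI) (k : ℕ) : cl (k + 1) ≤ cl k := by
  rw [h.cls]; exact mul_le_of_le_one_left zero_le h.th1.le

theorem Pr.cl_anti (h : Pr Γ d o F th kk cl Kn Dn p π LI) {k l : ℕ} (hkl : k ≤ l) : cl l ≤ cl k :=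
  antitone_nat_of_succ_le (fun k => h.cl_succ_le k) hkl

theorem Pr.kk_le (h : Pr Γ d o F th kk cl Kn Dn p π LI) (n : ℕ) : kk n ≤ kk (n + 1) := (h.kks n).le

/-- the density of the dead sites from the labels -/
theorem fc_dens (h : Pr Γ d o F th kk cl Kn Dn p π LI) {n : ℕ} {T : Cfg X} {L : Lb X} (hL : LI n L)
    (h1 : ∀ y ∈ L.run, T.s y ≠ 0) (h2 : ∀ y ∈ L.pend, 0 < T.s y) :
    ∃ dd : ℕ → Finset X, (∀ x, T.s x = 0 → ∃ j ≤ n, x ∈ dd j) ∧
      ∀ j B, (dd j ∩ Γ.blk j B).card ≤ Dn j := by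
  refine ⟨L.dd, fun x hx => ?_, (h.fac n L hL).dens⟩
  refine (h.fac n L hL).dead x (fun hr => h1 x hr hx) fun hp => ?_
  exact absurd hx (h2 x hp).ne'

theorem ite_cl_pos (h : Pr Γ d o F th kk cl Kn Dn p π LI) (c : Prop) [Decidable c] (k : ℕ) :
    0 < (if c then cl (k + 1) else cl k) := by
  split_ifs
  · exact h.clpos _
  · exact h.clpos _

/-- the processed set grows by a set without running sites, the running sites shrink -/
theorem fc_mono (h : Pr Γ d o F th kk cl Kn Dn p π LI) {n k : ℕ} {P P' : Finset X} {T : Cfg X}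
    {run run' : Finset X} (hk : kk n ≤ k) (hF : Fc Γ kk cl Dn n k P T run) (hP : P ⊆ P')
    (hr : run' ⊆ run) (hd : ∀ x ∈ run', x ∈ P' → x ∈ P) :
    Fc Γ kk cl Dn n k P' T run' := by
  have hb : ∀ x : X, (if x ∈ P' then cl (k + 1) else cl k) ≤ (if x ∈ P then cl (k + 1) else cl k) := by
    intro x
    by_cases h1 : x ∈ P
    · rw [if_pos h1, if_pos (hP h1)]
    · rw [if_neg h1]
      split_ifs
      · exact h.cl_succ_le k
      · exact le_rfl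
  have hc : ∀ x : X, (if x ∈ P then cl (k + 1) else cl k) ≤ cl k := by
    intro x
    split_ifs
    · exact h.cl_succ_le k
    · exact le_rfl
  refine ⟨fun x hx => ?_, fun x hx => ?_, hF.dens, fun m hm x hx hcl y hy => ?_⟩
  · rw [hF.runs x (hr hx)]
    by_cases h1 : x ∈ P
    · rw [if_pos h1, if_pos (hP h1)]
    · rw [if_neg h1, if_neg fun h2 => h1 (hd x hx h2)]
  · by_cases h1 : x ∈ run
    · right
      rw [hF.runs x h1]
      exact ⟨hb x, (hc x).trans (h.cl_anti (Nat.zero_le k))⟩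
    · rcases hF.rest x h1 with h2 | h2
      · exact Or.inl h2
      · exact Or.inr ⟨(hb x).trans h2.1, h2.2⟩
  · by_cases h1 : x ∈ run
    · exfalso
      rw [hF.runs x h1] at hcl
      have h2 : cl k ≤ cl (kk m) := h.cl_anti (by subst hm; exact (h.kk_le m).trans hk)
      exact absurd (lt_of_lt_of_le hcl (hc x)) (not_lt.mpr h2)
    · exact hF.shell m hm x h1 hcl y (hr hy)

end inv

end Pool.Agent.ANP.H16
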