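import Pool.Agent.Helper16_ANP.Win

/-! From `Att` to `Win`: the generic form. -/

set_option autoImplicit false

open MeasureTheory ProbabilityTheory

open scoped ENNReal NNReal BigOperators

noncomputable section

namespace Pool.Agent.ANP.H16

variable {X : Type} [Fintype X] [DecidableEq X]

theorem kv_le (T : Cfg X) (R D : Finset X) (hD : D ⊆ R) (r : X → ℝ≥0) (h : ∀ x ∈ R, T.s x ≤ r x) :
    ∀ x, T.kv D x ≤ r x := by
  intro x
  unfold Cfg.kv
  split_ifs with hx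
  · exact h x (hD hx)
  · exact zero_le

theorem kv_supp (T : Cfg X) (D : Finset X) (ζ : X → ℝ) (h : ∀ x, T.kv D x = 0 → ζ x = 0) :
    ∀ x, x ∉ D → ζ x = 0 := by
  intro x hx
  refine h x ?_
  unfold Cfg.kv
  rw [if_neg hx]

/-- `P T a r`: the relation between the configuration and the truth (noise seen, unseen variance). -/
theorem att_gen (R Q : Finset X) (v : X → ℝ) (Ok : Cfg X → Prop) (F : Set (X → ℝ))
    (hF : MeasurableSet F) (e₁ e₂ : ℝ) (he₁ : 0 ≤ e₁) (he : e₁ ≤ e₂)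
    (P : Cfg X → (X → ℝ) → (X → ℝ≥0) → Prop)
    (hle : ∀ T a r, P T a r → ∀ x ∈ R, T.s x ≤ r x)
    (hap : ∀ T a r b, b ∈ Q → P T a r → P (T.rv {b} v) a r)
    (hkl : ∀ T a r (D : Finset X) (ζ : X → ℝ), D ⊆ R → (∀ x ∈ D, 0 < T.s x) →
      (∀ x, x ∉ D → ζ x = 0) → P T a r →
      P (T.kl D ζ) (fun x => a x + ζ x) (fun x => r x - T.kv D x))
    (h₁ : ∀ T a r, Ok T → P T a r → Win F a r e₁)
    (h₂ : ∀ T a r, P T a r → Win F a r e₂)
    (T : Cfg X) (q : ℝ≥0∞) (h : Att R Q v Ok T q) :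
    ∀ (a : X → ℝ) (r : X → ℝ≥0), P T a r →
      gm a r F ≤ ENNReal.ofReal e₁ + q * ENNReal.ofReal (e₂ - e₁) := by
  induction h with
  | ok T hT =>
    intro a r hP
    rw [zero_mul, add_zero]
    have := h₁ T a r hT hP
    unfold Win Measure.real at this
    rw [← ENNReal.ofReal_toReal (measure_ne_top (gm a r) F)]
    exact ENNReal.ofReal_le_ofReal this
  | one T =>
    intro a r hP
    rw [one_mul, ← ENNReal.ofReal_add he₁ (sub_nonneg.mpr he)]
    have := h₂ T a r hP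
    unfold Win Measure.real at this
    rw [← ENNReal.ofReal_toReal (measure_ne_top (gm a r) F)]
    exact ENNReal.ofReal_le_ofReal (by linarith)
  | mono T q q' hq _ ih =>
    intro a r hP
    refine (ih a r hP).trans ?_
    gcongr
  | ap T b q hb _ ih =>
    intro a r hP
    exact ih a r (hap T a r b hb hP)
  | kill T D q hD hs hq _ ih =>
    intro a r hP
    rw [gm_step' a r (T.kv D) (kv_le T R D hD r (hle T a r hP)) F hF]
    have h0 := gm_ae_zero (T.kv D)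
    calc ∫⁻ ζ, gm (fun x => a x + ζ x) (fun x => r x - T.kv D x) F ∂(gm (fun _ => 0) (T.kv D))
        ≤ ∫⁻ ζ, (ENNReal.ofReal e₁ + q ζ * ENNReal.ofReal (e₂ - e₁))
            ∂(gm (fun _ => 0) (T.kv D)) := by
          refine lintegral_mono_ae ?_
          filter_upwards [h0] with ζ hζ
          exact ih ζ _ _ (hkl T a r D ζ hD hs (kv_supp T D ζ hζ) hP)
      _ = ENNReal.ofReal e₁ +
            (∫⁻ ζ, q ζ ∂(gm (fun _ => 0) (T.kv D))) * ENNReal.ofReal (e₂ - e₁) := by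
          rw [lintegral_add_left measurable_const, lintegral_mul_const _ hq, lintegral_const,
            measure_univ, mul_one]

theorem att_gen_real (R Q : Finset X) (v : X → ℝ) (Ok : Cfg X → Prop) (F : Set (X → ℝ))
    (hF : MeasurableSet F) (e₁ e₂ : ℝ) (he₁ : 0 ≤ e₁) (he : e₁ ≤ e₂)
    (P : Cfg X → (X → ℝ) → (X → ℝ≥0) → Prop)
    (hle : ∀ T a r, P T a r → ∀ x ∈ R, T.s x ≤ r x)
    (hap : ∀ T a r b, b ∈ Q → P T a r → P (T.rv {b} v) a r)
    (hkl : ∀ T a r (D : Finset X) (ζ : X → ℝ), D ⊆ R → (∀ x ∈ D, 0 < T.s x) →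
      (∀ x, x ∉ D → ζ x = 0) → P T a r →
      P (T.kl D ζ) (fun x => a x + ζ x) (fun x => r x - T.kv D x))
    (h₁ : ∀ T a r, Ok T → P T a r → Win F a r e₁)
    (h₂ : ∀ T a r, P T a r → Win F a r e₂)
    (T : Cfg X) (q : ℝ≥0∞) (h : Att R Q v Ok T q) (p : ℝ) (hp : 0 ≤ p) (hqp : q ≤ ENNReal.ofReal p)
    (a : X → ℝ) (r : X → ℝ≥0) (hP : P T a r) : Win F a r (e₁ + p * (e₂ - e₁)) := by
  have h3 := att_gen R Q v Ok F hF e₁ e₂ he₁ he P hle hap hkl h₁ h₂ T q h a r hP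
  have h4 : gm a r F ≤ ENNReal.ofReal (e₁ + p * (e₂ - e₁)) := by
    refine h3.trans ?_
    rw [ENNReal.ofReal_add he₁ (mul_nonneg hp (sub_nonneg.mpr he)), ENNReal.ofReal_mul hp]
    gcongr
  unfold Win Measure.real
  refine ENNReal.toReal_le_of_le_ofReal ?_ h4
  have := mul_nonneg hp (sub_nonneg.mpr he)
  linarith

end Pool.Agent.ANP.H16
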