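import Pool.Agent.Helper16_ANP.Gm

/-! `Win` under one noise. -/

set_option autoImplicit false

open MeasureTheory ProbabilityTheory

open scoped ENNReal NNReal BigOperators

noncomputable section

namespace Pool.Agent.ANP.H16

variable {X : Type} [Fintype X]

theorem gm_real_meas (a : X → ℝ) (q : X → ℝ≥0) (F : Set (X → ℝ)) (hF : MeasurableSet F) :
    Measurable (fun ζ : X → ℝ => (gm (fun x => a x + ζ x) q).real F) := by
  unfold Measure.real
  exact (gm_meas_shift a q F hF).ennreal_toReal

theorem gm_real_int (a : X → ℝ) (q τ : X → ℝ≥0) (F : Set (X → ℝ)) (hF : MeasurableSet F) :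
    Integrable (fun ζ : X → ℝ => (gm (fun x => a x + ζ x) q).real F) (gm (fun _ => 0) τ) := by
  refine Integrable.of_bound (gm_real_meas a q F hF).aestronglyMeasurable 1 ?_
  filter_upwards with ζ
  rw [Real.norm_eq_abs, abs_of_nonneg measureReal_nonneg]
  exact measureReal_le_one

/-- the noise has no component where its variance is zero -/
theorem gm_ae_zero (τ : X → ℝ≥0) :
    ∀ᵐ ζ ∂(gm (fun _ : X => (0 : ℝ)) τ), ∀ x, τ x = 0 → ζ x = 0 := by
  rw [ae_all_iff]
  intro x
  by_cases hx : τ x = 0
  · have h : (gm (fun _ : X => (0 : ℝ)) τ) {ζ | ζ x ≠ 0} = 0 := by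
      have h1 : {ζ : X → ℝ | ζ x ≠ 0} = Function.eval x ⁻¹' ({0}ᶜ : Set ℝ) := by
        ext ζ; simp [Function.eval]
      classical
      have hm : MeasurableSet ({0}ᶜ : Set ℝ) := (measurableSet_singleton 0).compl
      have h2 := (measurePreserving_eval (fun x : X => gaussianReal 0 (τ x)) x).measure_preimage
        hm.nullMeasurableSet
      unfold gm
      rw [h1, h2, hx, gaussianReal_zero_var, Measure.dirac_apply' _ hm]
      simp
    filter_upwards [measure_eq_zero_iff_ae_notMem.mp h] with ζ hζ _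
    by_contra hc
    exact hζ hc
  · filter_upwards with ζ h
    exact absurd h hx

/-- `Win` under one noise, with an exceptional set of small outer measure; only noises supported
where the variance is positive matter -/
theorem win_step (a : X → ℝ) (r τ : X → ℝ≥0) (hτ : ∀ x, τ x ≤ r x) (F : Set (X → ℝ))
    (hF : MeasurableSet F) (R : Set (X → ℝ)) (p e₁ e₂ : ℝ) (he : e₁ ≤ e₂) (hp : 0 ≤ p)
    (hR : gm (fun _ => 0) τ R ≤ ENNReal.ofReal p)
    (h₁ : ∀ ζ : X → ℝ, (∀ x, τ x = 0 → ζ x = 0) → ζ ∉ R →
      Win F (fun x => a x + ζ x) (fun x => r x - τ x) e₁)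
    (h₂ : ∀ ζ : X → ℝ, (∀ x, τ x = 0 → ζ x = 0) →
      Win F (fun x => a x + ζ x) (fun x => r x - τ x) e₂) :
    Win F a r (e₁ + p * (e₂ - e₁)) := by
  unfold Win
  rw [gm_step_real a r τ hτ F hF]
  set μ := gm (fun _ : X => (0 : ℝ)) τ with hμ
  set e : (X → ℝ) → ℝ := fun ζ => (gm (fun x => a x + ζ x) (fun x => r x - τ x)).real F with hedef
  have hem : Measurable e := gm_real_meas a _ F hF
  set B : Set (X → ℝ) := {ζ | e₁ < e ζ} with hB
  have hBm : MeasurableSet B := measurableSet_lt measurable_const hem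
  have h0 := gm_ae_zero τ
  rw [← hμ] at h0
  have hBR : μ B ≤ μ R := by
    refine measure_mono_ae ?_
    filter_upwards [h0] with ζ hζ hζB
    by_contra hc
    exact absurd (h₁ ζ hζ hc) (not_le.mpr hζB)
  have hBp : μ.real B ≤ p := by
    unfold Measure.real
    exact ENNReal.toReal_le_of_le_ofReal hp (hBR.trans hR)
  have hle : e ≤ᵐ[μ] fun ζ => e₁ + B.indicator (fun _ => e₂ - e₁) ζ := by
    filter_upwards [h0] with ζ hζ
    by_cases hb : ζ ∈ B
    · rw [Set.indicator_of_mem hb]
      have := h₂ ζ hζ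
      unfold Win at this
      simp only [hedef]
      linarith
    · rw [Set.indicator_of_notMem hb, add_zero]
      exact not_lt.mp hb
  have hint : Integrable (fun ζ => B.indicator (fun _ => e₂ - e₁) ζ) μ :=
    (integrable_const (e₂ - e₁)).indicator hBm
  calc ∫ ζ, e ζ ∂μ ≤ ∫ ζ, (e₁ + B.indicator (fun _ => e₂ - e₁) ζ) ∂μ :=
        integral_mono_ae (gm_real_int a _ τ F hF) ((integrable_const e₁).add hint) hle
    _ = e₁ + μ.real B * (e₂ - e₁) := by
        rw [integral_add (integrable_const e₁) hint, integral_const, integral_indicator_const _ hBm]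
        simp
    _ ≤ e₁ + p * (e₂ - e₁) := by
        have := mul_le_mul_of_nonneg_right hBp (sub_nonneg.mpr he)
        linarith

end Pool.Agent.ANP.H16
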