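import Pool.Agent.Helper92_ANR.Ctp
import Pool.Agent.Helper16_ANP.Win
import Pool.Agent.LE.DefsQD
import Pool.Agent.Helper54_BED.LA

/-! The end of the protocol: the Green function of the final state and of the true potential. -/

set_option autoImplicit false

open MeasureTheory ProbabilityTheory

open scoped ENNReal NNReal BigOperators

noncomputable section

namespace Pool.Agent.ANP.H16

open Pool.Agent.ANR Pool.Agent.ANR.H92

section det

variable {X : Type} [Fintype X] [DecidableEq X]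

/-- the real part of the operator of the configuration -/
def HT (A : Matrix X X ℝ) (E : ℝ) (V s : X → ℝ) (mb : X → ℂ) : Matrix X X ℝ :=
  A + Matrix.diagonal fun x => V x - s x * (mb x).re - E

/-- the absorption of the configuration -/
def kT (η : ℝ) (s : X → ℝ) (mb : X → ℂ) (x : X) : ℝ := η + s x * (mb x).im

theorem HT_ne (A : Matrix X X ℝ) (E : ℝ) (V s : X → ℝ) (mb : X → ℂ) {x y : X} (h : x ≠ y) :
    HT A E V s mb x y = A x y := by
  unfold HT
  rw [Matrix.add_apply, Matrix.diagonal_apply_ne _ h, add_zero]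

theorem HT_self (A : Matrix X X ℝ) (E : ℝ) (V s : X → ℝ) (mb : X → ℂ) (x : X) :
    HT A E V s mb x x = A x x + (V x - s x * (mb x).re - E) := by
  unfold HT
  rw [Matrix.add_apply, Matrix.diagonal_apply_eq]

theorem net_HT {A : Matrix X X ℝ} (hA : ∀ x y, A x y = A y x) (E η : ℝ) (hη : 0 < η)
    (V s : X → ℝ) (mb : X → ℂ) (hs : ∀ x, 0 ≤ s x * (mb x).im) :
    Net (HT A E V s mb) (kT η s mb) := by
  refine ⟨fun x y => ?_, fun x => ?_⟩
  · by_cases h : x = y
    · rw [h]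
    · rw [HT_ne A E V s mb h, HT_ne A E V s mb (Ne.symm h), hA x y]
  · unfold kT
    have := hs x
    linarith

/-- the column of a Green function solves the equation -/
theorem gr_col {H : Matrix X X ℝ} {κ : X → ℝ} (hN : Net H κ) (y : X) :
    ∀ x, opv H κ (fun z => Gr H κ z y) x = if x = y then 1 else 0 := by
  set W : Matrix X X ℂ := H.map (fun t : ℝ => (t : ℂ)) -
    Matrix.diagonal fun x => Complex.I * (κ x : ℂ) with hW
  have hmv : ∀ (ψ : X → ℂ) x, W.mulVec ψ x = opv H κ ψ x := by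
    intro ψ x
    rw [hW, Matrix.sub_mulVec, Pi.sub_apply, Matrix.mulVec_diagonal]
    unfold opv
    simp only [Matrix.mulVec, dotProduct, Matrix.map_apply]
  have hinj : Function.Injective W.mulVec := by
    have h0 : ∀ ψ : X → ℂ, W.mulVec ψ = 0 → ψ = 0 := by
      intro ψ hψ
      have h1 : ∀ x, opv H κ ψ x = (fun _ : X => (0 : ℂ)) x := by
        intro x
        rw [← hmv, hψ]
        rfl
      have h2 := ctp_l2 hN (adm_one hN) h1
      simp only [norm_zero, mul_zero, one_mul, ne_eq, OfNat.ofNat_ne_zero, not_false_eq_true,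
        zero_pow, zero_div, Finset.sum_const_zero] at h2
      have h3 : ∀ x ∈ Finset.univ, κ x * ‖ψ x‖ ^ 2 = 0 := by
        rw [← Finset.sum_eq_zero_iff_of_nonneg fun x _ => mul_nonneg (hN.pos x).le (sq_nonneg _)]
        exact le_antisymm h2 (Finset.sum_nonneg fun x _ => mul_nonneg (hN.pos x).le (sq_nonneg _))
      funext x
      have h4 := h3 x (Finset.mem_univ x)
      rcases mul_eq_zero.mp h4 with h | h
      · exact absurd h (hN.pos x).ne'
      · simpa using h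
    intro a b hab
    have h1 : W.mulVec (a - b) = 0 := by
      rw [Matrix.mulVec_sub, hab, sub_self]
    exact sub_eq_zero.mp (h0 _ h1)
  have hu : IsUnit W := Matrix.mulVec_injective_iff_isUnit.mp hinj
  have hmul : W * W⁻¹ = 1 := Matrix.mul_nonsing_inv W ((Matrix.isUnit_iff_isUnit_det W).mp hu)
  intro x
  rw [← hmv]
  have h1 : W.mulVec (fun z => Gr H κ z y) x = (W * W⁻¹) x y := rfl
  rw [h1, hmul, Matrix.one_apply]

/-- Green's identity -/
theorem green {H : Matrix X X ℝ} {κ : X → ℝ} (hN : Net H κ) (φ ψ : X → ℂ) :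
    ∑ x, φ x * opv H κ ψ x = ∑ x, ψ x * opv H κ φ x := by
  unfold opv
  simp only [mul_sub, Finset.sum_sub_distrib, Finset.mul_sum]
  congr 1
  · rw [Finset.sum_comm]
    refine Finset.sum_congr rfl fun x _ => Finset.sum_congr rfl fun y _ => ?_
    rw [hN.sym y x]
    ring
  · exact Finset.sum_congr rfl fun x _ => by ring

/-- the sup bound of a column -/
theorem col_le {H : Matrix X X ℝ} {κ : X → ℝ} (hN : Net H κ) {η : ℝ} (hη : 0 < η)
    (hκ : ∀ x, η ≤ κ x) {g : X → ℂ} {y : X} (hg : ∀ x, opv H κ g x = if x = y then 1 else 0)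
    (x : X) : ‖g x‖ ≤ 2 / η := by
  have h := (ctp hN (adm_one hN) hg).2 x
  simp only [one_pow, mul_one] at h
  have h1 : η * η ≤ κ x * κ y := mul_le_mul (hκ x) (hκ y) hη.le (hN.pos x).le
  have h2 : η * η * ‖g x‖ ^ 2 ≤ 4 :=
    (mul_le_mul_of_nonneg_right h1 (sq_nonneg _)).trans h
  rw [le_div_iff₀ hη]
  have h3 : (‖g x‖ * η) ^ 2 ≤ 2 ^ 2 := by
    calc (‖g x‖ * η) ^ 2 = η * η * ‖g x‖ ^ 2 := by ring
      _ ≤ 4 := h2
      _ = 2 ^ 2 := by norm_num
  exact le_of_sq_le_sq h3 (by norm_num)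

/-- the resolvent identity at one site -/
theorem res_id {H H' : Matrix X X ℝ} {κ κ' : X → ℝ} (hN : Net H κ) (hN' : Net H' κ')
    (hoff : ∀ x y, x ≠ y → H' x y = H x y) {g g' : X → ℂ} {o : X}
    (hg : ∀ x, opv H κ g x = if x = o then 1 else 0)
    (hg' : ∀ x, opv H' κ' g' x = if x = o then 1 else 0) :
    g o - g' o = ∑ x, g x * (((H' x x - H x x : ℝ) : ℂ) -
      Complex.I * ((κ' x - κ x : ℝ) : ℂ)) * g' x := by
  have h1 : ∑ x, g x * opv H' κ' g' x = g o := by
    simp only [hg']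
    simp
  have h2 : ∑ x, g x * opv H κ g' x = g' o := by
    rw [green hN]
    simp only [hg]
    simp
  rw [← h1, ← h2, ← Finset.sum_sub_distrib]
  refine Finset.sum_congr rfl fun x _ => ?_
  have h3 : ∑ y, (H' x y : ℂ) * g' y - ∑ y, (H x y : ℂ) * g' y =
      ((H' x x - H x x : ℝ) : ℂ) * g' x := by
    rw [← Finset.sum_sub_distrib, Finset.sum_eq_single x]
    · push_cast
      ring
    · intro y _ hyx
      rw [hoff x y (Ne.symm hyx), sub_self]
    · intro h
      exact absurd (Finset.mem_univ x) h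
  unfold opv
  rw [← mul_sub]
  have h4 : (∑ y, (H' x y : ℂ) * g' y - Complex.I * (κ' x : ℂ) * g' x) -
      (∑ y, (H x y : ℂ) * g' y - Complex.I * (κ x : ℂ) * g' x) =
      (((H' x x - H x x : ℝ) : ℂ) - Complex.I * ((κ' x - κ x : ℝ) : ℂ)) * g' x := by
    rw [sub_sub_sub_comm, h3]
    push_cast
    ring
  rw [h4, mul_assoc]

/-- LOCALITY at the origin: two networks which agree in the ball of radius `R` -/
theorem loc_o {A H H' : Matrix X X ℝ} {κ κ' : X → ℝ} (hN : Net H κ) (hN' : Net H' κ')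
    {ρ : X → ℕ} {o : X} (ho : ρ o = 0) {η D : ℝ} (hη : 0 < η) (hηD : η ≤ 4 * D)
    (hD : ∀ x, ∑ y, (if x = y then 0 else |A x y|) ≤ D)
    (hρ : ∀ x y, A x y ≠ 0 → ρ x ≤ ρ y + 1 ∧ ρ y ≤ ρ x + 1)
    (hH : ∀ x y, x ≠ y → H x y = A x y)
    (hκ : ∀ x, η ≤ κ x) (hκ' : ∀ x, η ≤ κ' x) (R : ℕ)
    (hO : ∀ x, ρ x ≤ R → κ' x = κ x ∧ ∀ y, H' x y = H x y)
    {g g' : X → ℂ}
    (hg : ∀ x, opv H κ g x = if x = o then 1 else 0)
    (hg' : ∀ x, opv H' κ' g' x = if x = o then 1 else 0) :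
    ‖g o - g' o‖ ≤ 8 * D / η ^ 2 * Real.exp (-(η / (4 * D) * (R - 1))) := by
  have hD0 : 0 < D := by linarith
  set a : ℝ := η / (4 * D) with ha
  have ha0 : 0 ≤ a := by positivity
  have ha1 : a ≤ 1 := by rw [ha, div_le_one (by positivity)]; exact hηD
  have haD : 4 * a * D ≤ η := by
    rw [ha]
    have : 4 * (η / (4 * D)) * D = η := by field_simp
    linarith
  have hρ1 : ∀ x y, H x y ≠ 0 → |(ρ x : ℝ) - (ρ y : ℝ)| ≤ 1 := by
    intro x y h
    by_cases hxy : x = y
    · rw [hxy, sub_self, abs_zero]; norm_num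
    · rw [hH x y hxy] at h
      obtain ⟨h1, h2⟩ := hρ x y h
      rw [abs_le]
      have h3 : (ρ x : ℝ) ≤ ρ y + 1 := by exact_mod_cast h1
      have h4 : (ρ y : ℝ) ≤ ρ x + 1 := by exact_mod_cast h2
      constructor <;> linarith
  have hDH : ∀ x, ∑ y, (if x = y then 0 else |H x y|) ≤ D := by
    intro x
    refine le_trans (le_of_eq (Finset.sum_congr rfl fun y _ => ?_)) (hD x)
    by_cases hxy : x = y
    · rw [if_pos hxy, if_pos hxy]
    · rw [if_neg hxy, if_neg hxy, hH x y hxy]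
  obtain ⟨_, hw⟩ := adm_exp (A := Set.univ) (D := D) (κ₀ := η) (a := a) (ρ := fun x => (ρ x : ℝ))
    hN ha0 ha1 haD (fun x _ => hDH x) (fun x _ => hκ x) hρ1
    (fun x y hx _ => absurd (Set.mem_univ x) hx)
  set B : Finset X := Finset.univ.filter fun x => ρ x ≤ R with hB
  set S : Finset X := Finset.univ.filter fun x => R ≤ ρ x + 1 with hS
  have hoB : o ∈ B := by simp [hB, ho]
  have hC : Cut H κ (fun x => Real.exp (-(a * (ρ x : ℝ)))) B S D η
      (Real.exp (-(a * ((R : ℝ) - 1)))) := by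
    refine ⟨fun z hz y hy hne => ?_, fun x _ => hDH x, fun x _ => hκ x, fun x hx => ?_, hη, hD0.le⟩
    · have hz' : ρ z ≤ R := by simpa [hB] using hz
      have hy' : R < ρ y := by simpa [hB] using hy
      have hzy : z ≠ y := by
        rintro rfl
        omega
      rw [hH z y hzy] at hne
      obtain ⟨h1, h2⟩ := hρ z y hne
      refine ⟨?_, ?_⟩
      · simp only [hS, Finset.mem_filter, Finset.mem_univ, true_and]; omega
      · simp only [hS, Finset.mem_filter, Finset.mem_univ, true_and]; omega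
    · have hx' : R ≤ ρ x + 1 := by simpa [hS] using hx
      have h1 : (R : ℝ) ≤ ρ x + 1 := by exact_mod_cast hx'
      refine Real.exp_le_exp.mpr (neg_le_neg ?_)
      exact mul_le_mul_of_nonneg_left (by linarith) ha0
  have h := loc_bound (H' := H') (κ' := κ') hN hN' hw hC (fun x _ => hκ' x)
    (fun x hx => hO x (by simpa [hB] using hx)) hoB hg hg'
  set W : ℝ := Real.exp (-(a * ((R : ℝ) - 1))) with hWdef
  have hW0 : 0 < W := Real.exp_pos _
  have h1 : κ o * (1 * ‖g o - g' o‖) ^ 2 ≤ 64 * (W ^ 2 * D ^ 2) / (η ^ 2 * κ o) := by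
    refine le_trans ?_ h
    have h2 := Finset.single_le_sum (f := fun x => κ x * (Real.exp (-(a * (ρ x : ℝ))) *
      ‖g x - g' x‖) ^ 2) (fun x _ => mul_nonneg (hN.pos x).le (sq_nonneg _)) hoB
    refine le_trans (le_of_eq ?_) h2
    simp [ho]
  have hκo := hκ o
  have hκ0 := hN.pos o
  have h2 : (κ o * ‖g o - g' o‖) ^ 2 ≤ (8 * W * D / η) ^ 2 := by
    have h3 := mul_le_mul_of_nonneg_left h1 hκ0.le
    calc (κ o * ‖g o - g' o‖) ^ 2 = κ o * (κ o * (1 * ‖g o - g' o‖) ^ 2) := by ring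
      _ ≤ κ o * (64 * (W ^ 2 * D ^ 2) / (η ^ 2 * κ o)) := h3
      _ = (8 * W * D / η) ^ 2 := by field_simp; ring
  have h3 : κ o * ‖g o - g' o‖ ≤ 8 * W * D / η := le_of_sq_le_sq h2 (by positivity)
  have h4 : η * ‖g o - g' o‖ ≤ 8 * W * D / η :=
    (mul_le_mul_of_nonneg_right hκo (norm_nonneg _)).trans h3
  have h5 : ‖g o - g' o‖ ≤ 8 * W * D / η / η := by
    rw [le_div_iff₀ hη]
    linarith
  refine h5.trans (le_of_eq ?_)
  field_simp

/-- the deterministic comparison -/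
theorem end_det {A : Matrix X X ℝ} (hA : ∀ x y, A x y = A y x) {ρ : X → ℕ} {o : X} (ho : ρ o = 0)
    {E η D : ℝ} (hη : 0 < η) (hηD : η ≤ 4 * D)
    (hD : ∀ x, ∑ y, (if x = y then 0 else |A x y|) ≤ D)
    (hρ : ∀ x y, A x y ≠ 0 → ρ x ≤ ρ y + 1 ∧ ρ y ≤ ρ x + 1)
    (V s : X → ℝ) (mb : X → ℂ) (hs : ∀ x, 0 ≤ s x * (mb x).im) (R : ℕ) (t : ℝ) (ht : 0 ≤ t)
    (V' : X → ℝ)
    (hB : ∀ x, ρ x ≤ R → |V' x - V x| + |s x| * ‖mb x‖ ≤ t) :
    ‖Gr (HT A E V' 0 0) (kT η 0 0) o o - Gr (HT A E V s mb) (kT η s mb) o o‖ ≤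
      8 * D / η ^ 2 * Real.exp (-(η / (4 * D) * (R - 1))) +
        4 / η ^ 2 * (((Finset.univ.filter fun x => ρ x ≤ R).card : ℝ) * t) := by
  -- the hybrid
  obtain ⟨W, hW⟩ : ∃ W : X → ℝ, ∀ x, W x = if ρ x ≤ R then V' x else V x := ⟨_, fun _ => rfl⟩
  obtain ⟨u, hu⟩ : ∃ u : X → ℝ, ∀ x, u x = if ρ x ≤ R then 0 else s x := ⟨_, fun _ => rfl⟩
  have hus : ∀ x, 0 ≤ u x * (mb x).im := by
    intro x
    rw [hu x]
    split_ifs
    · simp
    · exact hs x
  have h00 : ∀ x : X, (0 : ℝ) ≤ (0 : X → ℝ) x * ((0 : X → ℂ) x).im := fun x => by simp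
  have hN1 := net_HT hA E η hη V' 0 0 h00
  have hN2 := net_HT hA E η hη W u mb hus
  have hN3 := net_HT hA E η hη V s mb hs
  have k1 : ∀ x, η ≤ kT η (0 : X → ℝ) (0 : X → ℂ) x := fun x => by simp [kT]
  have k2 : ∀ x, η ≤ kT η u mb x := fun x => by unfold kT; linarith [hus x]
  have k3 : ∀ x, η ≤ kT η s mb x := fun x => by unfold kT; linarith [hs x]
  have g1 := gr_col hN1 o
  have g2 := gr_col hN2 o
  have g3 := gr_col hN3 o
  have e1 := loc_o (A := A) hN1 hN2 ho hη hηD hD hρ (fun x y h => HT_ne A E V' 0 0 h) k1 k2 R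
    (fun x hx => by
      refine ⟨?_, fun y => ?_⟩
      · unfold kT
        rw [hu x, if_pos hx]
        simp
      · by_cases hxy : x = y
        · rw [← hxy, HT_self, HT_self, hW x, if_pos hx, hu x, if_pos hx]
          simp
        · rw [HT_ne _ _ _ _ _ hxy, HT_ne _ _ _ _ _ hxy]) g1 g2
  have e2 := res_id hN2 hN3 (fun x y h => by rw [HT_ne _ _ _ _ _ h, HT_ne _ _ _ _ _ h]) g2 g3
  have e3 : ‖Gr (HT A E W u mb) (kT η u mb) o o - Gr (HT A E V s mb) (kT η s mb) o o‖ ≤
      4 / η ^ 2 * (((Finset.univ.filter fun x => ρ x ≤ R).card : ℝ) * t) := by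
    rw [e2]
    have hterm : ∀ x, ‖Gr (HT A E W u mb) (kT η u mb) x o *
        (((HT A E V s mb x x - HT A E W u mb x x : ℝ) : ℂ) -
          Complex.I * ((kT η s mb x - kT η u mb x : ℝ) : ℂ)) *
        Gr (HT A E V s mb) (kT η s mb) x o‖ ≤ if ρ x ≤ R then 4 / η ^ 2 * t else 0 := by
      intro x
      have hd : (((HT A E V s mb x x - HT A E W u mb x x : ℝ) : ℂ) -
          Complex.I * ((kT η s mb x - kT η u mb x : ℝ) : ℂ)) =
          ((V x - W x : ℝ) : ℂ) - ((s x - u x : ℝ) : ℂ) * mb x := by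
        rw [HT_self, HT_self]
        unfold kT
        apply Complex.ext <;> simp <;> ring
      rw [hd]
      by_cases hx : ρ x ≤ R
      · rw [if_pos hx, hW x, if_pos hx, hu x, if_pos hx, sub_zero, norm_mul, norm_mul]
        have b1 := col_le hN2 hη k2 g2 x
        have b2 := col_le hN3 hη k3 g3 x
        have b3 : ‖((V x - V' x : ℝ) : ℂ) - ((s x : ℝ) : ℂ) * mb x‖ ≤ t := by
          refine (norm_sub_le _ _).trans ?_
          rw [norm_mul, Complex.norm_real, Complex.norm_real, Real.norm_eq_abs, Real.norm_eq_abs,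
            abs_sub_comm]
          exact hB x hx
        have hp : (0 : ℝ) ≤ 2 / η := by positivity
        calc ‖Gr (HT A E W u mb) (kT η u mb) x o‖ *
              ‖((V x - V' x : ℝ) : ℂ) - ((s x : ℝ) : ℂ) * mb x‖ *
              ‖Gr (HT A E V s mb) (kT η s mb) x o‖
            ≤ (2 / η) * t * (2 / η) := by
              refine mul_le_mul (mul_le_mul b1 b3 (norm_nonneg _) hp) b2 (norm_nonneg _) ?_
              exact mul_nonneg hp ht
          _ = 4 / η ^ 2 * t := by ring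
      · rw [if_neg hx, hW x, if_neg hx, hu x, if_neg hx, sub_self, sub_self]
        simp
    refine (norm_sum_le _ _).trans ((Finset.sum_le_sum fun x _ => hterm x).trans (le_of_eq ?_))
    rw [← Finset.sum_filter, Finset.sum_const, nsmul_eq_mul]
    ring
  calc ‖Gr (HT A E V' 0 0) (kT η 0 0) o o - Gr (HT A E V s mb) (kT η s mb) o o‖
      = ‖(Gr (HT A E V' 0 0) (kT η 0 0) o o - Gr (HT A E W u mb) (kT η u mb) o o) +
        (Gr (HT A E W u mb) (kT η u mb) o o - Gr (HT A E V s mb) (kT η s mb) o o)‖ := by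
        congr 1; ring
    _ ≤ _ := (norm_add_le _ _).trans (add_le_add e1 e3)

end det

/-! ### probability -/

section prob

variable {X : Type} [Fintype X]

theorem gauss_cheb (a : ℝ) (r : ℝ≥0) {l : ℝ} (hl : 0 < l) :
    gaussianReal a r {y | l ≤ |y - a|} ≤ ENNReal.ofReal (r / l ^ 2) := by
  have h := meas_ge_le_variance_div_sq (μ := gaussianReal a r) (X := fun y : ℝ => y)
    (memLp_id_gaussianReal 2) hl
  have h1 : ∫ y, y ∂(gaussianReal a r) = a := integral_id_gaussianReal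
  have h2 : Var[fun y : ℝ => y; gaussianReal a r] = r := variance_fun_id_gaussianReal
  rw [h1, h2] at h
  exact h

theorem gm_coord (a : X → ℝ) (r : X → ℝ≥0) (x : X) (S : Set ℝ) (hS : MeasurableSet S) :
    gm a r {V | V x ∈ S} = gaussianReal (a x) (r x) S := by
  classical
  have h := (measurePreserving_eval (fun x : X => gaussianReal (a x) (r x)) x).measure_preimage
    hS.nullMeasurableSet
  unfold gm
  exact h

/-- Chebyshev for all the sites of `B` -/
theorem gm_cheb (a : X → ℝ) (r : X → ℝ≥0) (B : Finset X) {l s₁ : ℝ} (hl : 0 < l) (hs : 0 ≤ s₁)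
    (hr : ∀ x ∈ B, (r x : ℝ) ≤ s₁) :
    (gm a r).real {V | ∃ x ∈ B, l ≤ |V x - a x|} ≤ (B.card : ℝ) * (s₁ / l ^ 2) := by
  have h1 : {V : X → ℝ | ∃ x ∈ B, l ≤ |V x - a x|} = ⋃ x ∈ B, {V | l ≤ |V x - a x|} := by
    ext V
    simp
  have h2 : gm a r {V | ∃ x ∈ B, l ≤ |V x - a x|} ≤
      ∑ _x ∈ B, ENNReal.ofReal (s₁ / l ^ 2) := by
    rw [h1]
    refine (measure_biUnion_finset_le B _).trans (Finset.sum_le_sum fun x hx => ?_)
    have h3 := gm_coord a r x {y | l ≤ |y - a x|}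
      (measurableSet_le measurable_const (by fun_prop))
    have h4 : {V : X → ℝ | l ≤ |V x - a x|} = {V | V x ∈ {y : ℝ | l ≤ |y - a x|}} := rfl
    rw [h4, h3]
    refine (gauss_cheb (a x) (r x) hl).trans (ENNReal.ofReal_le_ofReal ?_)
    exact div_le_div_of_nonneg_right (hr x hx) (by positivity)
  unfold Measure.real
  refine ENNReal.toReal_le_of_le_ofReal (by positivity) (h2.trans (le_of_eq ?_))
  rw [Finset.sum_const, nsmul_eq_mul, ENNReal.ofReal_mul (by positivity), ENNReal.ofReal_natCast]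

end prob

/-! ### the torus -/

section tor

open Pool.Agent.BED Pool.Agent.LE.QD

variable {d M : ℕ} [NeZero M]

theorem adj_row (x : Tor d M) : ∑ y, adj d M x y = 2 * d := by
  have h := adj_mulVec (M := M) (d := d) (fun _ => (1 : ℝ)) x
  simp only [mul_one] at h
  rw [h, Finset.sum_const, Finset.card_univ, Fintype.card_fin, nsmul_eq_mul]
  ring

theorem adj_off (x : Tor d M) : ∑ y, (if x = y then 0 else |adj d M x y|) ≤ 2 * d := by
  rw [← adj_row x]
  refine Finset.sum_le_sum fun y _ => ?_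
  split_ifs
  · exact adj_nonneg x y
  · rw [abs_of_nonneg (adj_nonneg x y)]

/-- the resolvent of the true potential -/
theorem rs_eq (V : Tor d M → ℝ) (E η : ℝ) :
    rs V ⟨E, η⟩ = Gr (HT (adj d M) E V 0 0) (kT η 0 0) := by
  unfold rs Gr
  congr 1
  unfold hz
  ext x y
  by_cases h : x = y
  · rw [← h, Matrix.add_apply, Matrix.sub_apply, Matrix.diagonal_apply_eq,
      Matrix.diagonal_apply_eq, Matrix.map_apply, Matrix.map_apply, HT_self]
    unfold kT
    apply Complex.ext <;> simp <;> ring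
  · rw [Matrix.add_apply, Matrix.sub_apply, Matrix.diagonal_apply_ne _ h,
      Matrix.diagonal_apply_ne _ h, Matrix.map_apply, Matrix.map_apply, HT_ne _ _ _ _ _ h,
      add_zero, sub_zero]

/-- END: the true Green function at the origin is the one of the final configuration, if there is no
frozen site in the ball of radius `R` and the clocks there are at most `s₁` -/
theorem end_win (hd : 1 ≤ d) {ρ : Tor d M → ℕ} (ho : ρ 0 = 0)
    (hρ : ∀ x y, adj d M x y ≠ 0 → ρ x ≤ ρ y + 1 ∧ ρ y ≤ ρ x + 1)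
    {E η : ℝ} (hη : 0 < η) (hη1 : η ≤ 1) (T : Cfg (Tor d M))
    (hs : ∀ x, 0 ≤ (T.s x : ℝ) * (T.mb x).im) (a : Tor d M → ℝ) (r : Tor d M → ℝ≥0)
    (R : ℕ) {s₁ C₀ l : ℝ} (hs₁ : 0 ≤ s₁) (hC₀ : 0 ≤ C₀) (hl : 0 < l)
    (hB : ∀ x, ρ x ≤ R → T.V x = a x ∧ (r x : ℝ) ≤ s₁ ∧ (T.s x : ℝ) ≤ s₁ ∧
      (T.s x ≠ 0 → ‖T.mb x‖ ≤ C₀)) :
    Win {V' | 16 * d / η ^ 2 * Real.exp (-(η / (8 * d) * (R - 1))) +
        4 / η ^ 2 * (((Finset.univ.filter fun x => ρ x ≤ R).card : ℝ) * (l + s₁ * C₀)) <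
        ‖rs V' ⟨E, η⟩ 0 0 -
          Gr (HT (adj d M) E T.V (fun x => T.s x) T.mb) (kT η (fun x => T.s x) T.mb) 0 0‖}
      a r (((Finset.univ.filter fun x => ρ x ≤ R).card : ℝ) * (s₁ / l ^ 2)) := by
  have hd0 : (1 : ℝ) ≤ d := by exact_mod_cast hd
  have h := gm_cheb a r (Finset.univ.filter fun x => ρ x ≤ R) hl hs₁
    (fun x hx => (hB x (by simpa using hx)).2.1)
  refine le_trans (measureReal_mono ?_ (measure_ne_top _ _)) h
  intro V' hV'
  by_contra hc
  have hc' : ∀ x, ρ x ≤ R → |V' x - a x| < l := by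
    intro x hx
    by_contra h2
    exact hc ⟨x, by simpa using hx, not_lt.mp h2⟩
  rw [Set.mem_setOf_eq] at hV'
  refine absurd hV' (not_lt.mpr ?_)
  rw [rs_eq]
  have h3 := end_det (A := adj d M) adj_symm (ρ := ρ) ho (E := E) (D := 2 * d) hη
    (by linarith) adj_off hρ T.V (fun x => (T.s x : ℝ)) T.mb hs R (l + s₁ * C₀)
    (by positivity) V' (fun x hx => by
      obtain ⟨b1, b2, b3, b4⟩ := hB x hx
      rw [b1]
      have c1 := (hc' x hx).le
      have c2 : |(T.s x : ℝ)| * ‖T.mb x‖ ≤ s₁ * C₀ := by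
        have hab : |(T.s x : ℝ)| = T.s x := abs_of_nonneg (T.s x).2
        rw [hab]
        by_cases hz : T.s x = 0
        · rw [hz]
          simp only [NNReal.coe_zero, zero_mul]
          positivity
        · exact mul_le_mul b3 (b4 hz) (norm_nonneg _) hs₁
      linarith)
  refine h3.trans (le_of_eq ?_)
  have e1 : (8 : ℝ) * (2 * d) = 16 * d := by ring
  have e2 : (4 : ℝ) * (2 * d) = 8 * d := by ring
  rw [e1, e2]

end tor

end Pool.Agent.ANP.H16
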