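import Pool.Agent.ANP.Defs

/-! Step identity for the Gaussian product measures. -/

set_option autoImplicit false

open MeasureTheory ProbabilityTheory

open scoped ENNReal NNReal BigOperators

noncomputable section

namespace Pool.Agent.ANP.H16

variable {X : Type} [Fintype X]

instance gm_prob (a : X → ℝ) (r : X → ℝ≥0) : IsProbabilityMeasure (gm a r) := by
  unfold gm; infer_instance

theorem gm_conv (a b : X → ℝ) (p q : X → ℝ≥0) :
    (gm a p).conv (gm b q) = gm (fun x => a x + b x) (fun x => p x + q x) := by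
  unfold Measure.conv gm
  have h := (measurePreserving_arrowProdEquivProdArrow ℝ ℝ X
    (fun x => gaussianReal (a x) (p x)) (fun x => gaussianReal (b x) (q x))).map_eq
  rw [← h, Measure.map_map (by fun_prop) (MeasurableEquiv.measurable _)]
  have h2 : ((fun x : (X → ℝ) × (X → ℝ) => x.1 + x.2) ∘
      (MeasurableEquiv.arrowProdEquivProdArrow ℝ ℝ X)) =
      (fun (x : X → ℝ × ℝ) i => (fun z : ℝ × ℝ => z.1 + z.2) (x i)) := by
    funext x i
    rfl
  rw [h2, Measure.pi_map_pi (fun i => (by fun_prop : Measurable fun z : ℝ × ℝ => z.1 + z.2).aemeasurable)]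
  congr 1
  funext i
  exact gaussianReal_conv_gaussianReal

theorem gm_shift (a ζ : X → ℝ) (r : X → ℝ≥0) :
    (gm a r).map (fun y => ζ + y) = gm (fun x => a x + ζ x) r := by
  unfold gm
  have h := Measure.pi_map_pi (μ := fun x => gaussianReal (a x) (r x))
    (f := fun (i : X) (y : ℝ) => ζ i + y) (fun i => (measurable_const_add (ζ i)).aemeasurable)
  have h2 : (fun y : X → ℝ => ζ + y) = fun (x : X → ℝ) i => ζ i + x i := by
    funext y i; rfl
  rw [h2, h]
  congr 1
  funext i
  exact gaussianReal_map_const_add (ζ i)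

/-- the step identity, any measurable function -/
theorem gm_step_lint (a : X → ℝ) (p q : X → ℝ≥0) (f : (X → ℝ) → ℝ≥0∞) (hf : Measurable f) :
    ∫⁻ y, f y ∂(gm a (fun x => p x + q x)) =
      ∫⁻ ζ, (∫⁻ y, f y ∂(gm (fun x => a x + ζ x) q)) ∂(gm (fun _ => 0) p) := by
  have h := gm_conv (fun _ : X => (0 : ℝ)) a p q
  have h1 : (fun x => (0 : ℝ) + a x) = a := by funext x; simp
  rw [h1] at h
  rw [← h, Measure.lintegral_conv hf]
  refine lintegral_congr fun ζ => ?_
  rw [← gm_shift a ζ q, lintegral_map hf (by fun_prop)]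

theorem gm_meas_shift (a : X → ℝ) (q : X → ℝ≥0) (F : Set (X → ℝ)) (hF : MeasurableSet F) :
    Measurable (fun ζ : X → ℝ => gm (fun x => a x + ζ x) q F) := by
  have h : (fun ζ : X → ℝ => gm (fun x => a x + ζ x) q F) =
      fun ζ => (gm a q) (Prod.mk ζ ⁻¹' {p : (X → ℝ) × (X → ℝ) | p.1 + p.2 ∈ F}) := by
    funext ζ
    rw [← gm_shift a ζ q, Measure.map_apply (by fun_prop) hF]
    rfl
  rw [h]
  exact measurable_measure_prodMk_left ((by fun_prop : Measurable fun p : (X → ℝ) × (X → ℝ) =>
    p.1 + p.2) hF)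

/-- the step identity for the measure of a set -/
theorem gm_step (a : X → ℝ) (p q : X → ℝ≥0) (F : Set (X → ℝ)) (hF : MeasurableSet F) :
    gm a (fun x => p x + q x) F =
      ∫⁻ ζ, gm (fun x => a x + ζ x) q F ∂(gm (fun _ => 0) p) := by
  have h := gm_step_lint a p q (F.indicator 1) (measurable_one.indicator hF)
  rw [lintegral_indicator_one hF] at h
  rw [h]
  refine lintegral_congr fun ζ => ?_
  rw [lintegral_indicator_one hF]

/-- the step identity with `τ ≤ r` -/
theorem gm_step' (a : X → ℝ) (r τ : X → ℝ≥0) (hτ : ∀ x, τ x ≤ r x) (F : Set (X → ℝ))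
    (hF : MeasurableSet F) :
    gm a r F = ∫⁻ ζ, gm (fun x => a x + ζ x) (fun x => r x - τ x) F ∂(gm (fun _ => 0) τ) := by
  have h := gm_step a τ (fun x => r x - τ x) F hF
  have h1 : (fun x => τ x + (r x - τ x)) = r := by
    funext x; exact add_tsub_cancel_of_le (hτ x)
  rw [h1] at h
  exact h

theorem gm_step_real (a : X → ℝ) (r τ : X → ℝ≥0) (hτ : ∀ x, τ x ≤ r x) (F : Set (X → ℝ))
    (hF : MeasurableSet F) :
    (gm a r).real F =
      ∫ ζ, (gm (fun x => a x + ζ x) (fun x => r x - τ x)).real F ∂(gm (fun _ => 0) τ) := by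
  unfold Measure.real
  rw [gm_step' a r τ hτ F hF, integral_toReal]
  · exact (gm_meas_shift a _ F hF).aemeasurable
  · filter_upwards with ζ
    exact measure_lt_top _ _

end Pool.Agent.ANP.H16
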