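import Pool.Agent.Helper16_ANP.PrtA

/-! The main induction of the protocol, part 2: the transitions of the invariant. -/

set_option autoImplicit false

open MeasureTheory ProbabilityTheory

open scoped ENNReal NNReal BigOperators

noncomputable section

namespace Pool.Agent.ANP.H16

variable {X : Type} [Fintype X] [DecidableEq X]
  {Γ : Geo X} {d : ℕ} {o : X} {F : Set (X → ℝ)} {th : ℝ≥0} {kk : ℕ → ℕ} {cl : ℕ → ℝ≥0}
  {Kn Dn : ℕ → ℕ} {p π : ℕ → ℝ} {LI : ℕ → Lb X → Prop}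

/-- the running sites have positive clocks -/
theorem Bs.run_pos (h : Pr Γ d o F th kk cl Kn Dn p π LI) {n k : ℕ} {P : Finset X} {T : Cfg X}
    {L : Lb X} {a : X → ℝ} {r : X → ℝ≥0} {x : ℕ × X → ℝ}
    (hB : Bs Γ kk cl Dn π LI n k P T L a r x) : ∀ y ∈ L.run, 0 < T.s y := by
  intro y hy
  rw [hB.fc.runs y hy]
  exact ite_cl_pos h _ k

theorem Bs.disj (h : Pr Γ d o F th kk cl Kn Dn p π LI) {n k : ℕ} {P : Finset X} {T : Cfg X}
    {L : Lb X} {a : X → ℝ} {r : X → ℝ≥0} {x : ℕ × X → ℝ}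
    (hB : Bs Γ kk cl Dn π LI n k P T L a r x) {y : X} (hy : y ∈ L.run) : y ∉ L.pend :=
  fun hp => Finset.disjoint_left.mp (h.fac n L hB.li).disj hy hp

/-- processed sites -/
theorem Bs.skip (h : Pr Γ d o F th kk cl Kn Dn p π LI) {n k : ℕ} {P P' : Finset X} {T : Cfg X}
    {L : Lb X} {a : X → ℝ} {r : X → ℝ≥0} {x : ℕ × X → ℝ}
    (hB : Bs Γ kk cl Dn π LI n k P T L a r x) (hk : kk n ≤ k) (hP : P ⊆ P')
    (hd : ∀ y ∈ L.run, y ∈ P' → y ∈ P) : Bs Γ kk cl Dn π LI n k P' T L a r x :=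
  { hB with fc := fc_mono h hk hB.fc hP (Finset.Subset.refl _) hd }

/-- the coins after a trial of a block which is not bad -/
theorem coin_upd {n : ℕ} {L : Lb X} {x : ℕ × X → ℝ} {B : X} (t : ℝ)
    (badj : ∀ j, n < j → L.bad j = ∅)
    (qq : ∀ j, ∀ B ∈ L.bad j, 1 ≤ H72.QQ Γ.ch Γ.J x j B) (hBb : B ∉ L.bad n) :
    ∀ j, ∀ B' ∈ L.bad j, 1 ≤ H72.QQ Γ.ch Γ.J (Function.update x (n, B) t) j B' := by
  intro j B' hB'
  rw [qq_upd j B']
  · exact qq j B' hB'
  · rcases lt_trichotomy j n with hj | hj | hj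
    · exact Or.inl hj
    · right
      refine ⟨hj, ?_⟩
      rintro rfl
      exact hBb (hj ▸ hB')
    · rw [badj j hj] at hB'
      exact absurd hB' (Finset.notMem_empty _)

theorem upd01 {x : ℕ × X → ℝ} (x0 : ∀ c, 0 ≤ x c) (x1 : ∀ c, x c ≤ 1) (c : ℕ × X) {t : ℝ}
    (ht0 : 0 ≤ t) (ht1 : t ≤ 1) :
    (∀ e, 0 ≤ Function.update x c t e) ∧ ∀ e, Function.update x c t e ≤ 1 := by
  constructor
  · exact upd_nonneg x0 c ht0
  · intro e
    by_cases he : e = c
    · subst he; rw [Function.update_self]; exact ht1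
    · rw [Function.update_of_ne he]; exact x1 e

theorem cj_upd {n : ℕ} {x : ℕ × X → ℝ} {B : X} (t : ℝ) (cj : ∀ j, n < j → ∀ B, π j ≤ x (j, B)) :
    ∀ j, n < j → ∀ B', π j ≤ Function.update x (n, B) t (j, B') := by
  intro j hj B'
  rw [Function.update_of_ne]
  · exact cj j hj B'
  · intro heq
    rw [Prod.mk.injEq] at heq
    omega

/-- an accepted block update -/
theorem Bs.upd (h : Pr Γ d o F th kk cl Kn Dn p π LI) {n k : ℕ} {P : Finset X} {T : Cfg X}
    {L : Lb X} {a : X → ℝ} {r : X → ℝ≥0} {x : ℕ × X → ℝ}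
    (hB : Bs Γ kk cl Dn π LI n k P T L a r x) {B : X} (hBb : B ∉ L.bad n)
    (hdis : Disjoint P (Γ.blk n B)) (hx : p n ≤ x (n, B)) (ζ : X → ℝ)
    (hζ : ∀ y, T.hv th (L.run ∩ Γ.blk n B) y = 0 → ζ y = 0) :
    Bs Γ kk cl Dn π LI n k (P ∪ Γ.blk n B) (T.hf th (L.run ∩ Γ.blk n B) ζ) L
      (fun y => a y + ζ y) (fun y => r y - T.hv th (L.run ∩ Γ.blk n B) y)
      (Function.update x (n, B) (x (n, B) - p n)) := by
  have hp0 := h.p0 n
  obtain ⟨u0, u1⟩ := upd01 hB.x0 hB.x1 (n, B) (t := x (n, B) - p n) (by linarith)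
    (by linarith [hB.x1 (n, B)])
  set U := L.run ∩ Γ.blk n B with hU
  have hs1 : ∀ y, y ∈ U → (T.hf th U ζ).s y = th * T.s y := fun y hy => by
    show (if y ∈ U then th * T.s y else T.s y) = _
    rw [if_pos hy]
  have hs2 : ∀ y, y ∉ U → (T.hf th U ζ).s y = T.s y := fun y hy => by
    show (if y ∈ U then th * T.s y else T.s y) = _
    rw [if_neg hy]
  have hV1 : ∀ y, y ∈ U → (T.hf th U ζ).V y = T.V y + ζ y := fun y hy => by
    show (if y ∈ U then T.V y + ζ y else T.V y) = _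
    rw [if_pos hy]
  have hV2 : ∀ y, y ∉ U → (T.hf th U ζ).V y = T.V y := fun y hy => by
    show (if y ∈ U then T.V y + ζ y else T.V y) = _
    rw [if_neg hy]
  have hv1 : ∀ y, y ∈ U → T.hv th U y = (1 - th) * T.s y := fun y hy => by
    unfold Cfg.hv; rw [if_pos hy]
  have hv2 : ∀ y, y ∉ U → T.hv th U y = 0 := fun y hy => by
    unfold Cfg.hv; rw [if_neg hy]
  have hUr : ∀ y, y ∈ U → y ∈ L.run := fun y hy => (Finset.mem_inter.mp hy).1
  have hUb : ∀ y, y ∈ U → y ∈ Γ.blk n B := fun y hy => (Finset.mem_inter.mp hy).2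
  have hUP : ∀ y, y ∈ U → y ∉ P := fun y hy hP => Finset.disjoint_left.mp hdis hP (hUb y hy)
  have hzero : ∀ y, (T.hf th U ζ).s y = 0 → T.s y = 0 := by
    intro y hy
    by_cases hyU : y ∈ U
    · rw [hs1 y hyU] at hy
      have h1 := hB.run_pos h y (hUr y hyU)
      exact absurd hy (mul_pos h.th0 h1).ne'
    · rw [hs2 y hyU] at hy
      exact hy
  have hnU : ∀ y, y ∉ L.run → y ∉ U := fun y hy hyU => hy (hUr y hyU)
  refine ⟨hB.li, hB.badj, hB.opr, u0, u1, coin_upd _ hB.badj hB.qq hBb,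
    ⟨fun y hy => ?_, fun y hy => ?_, ?_, fun m hm y hy hcl z hz => ?_⟩, fun y hy => ?_,
    fun y h1 h2 => ?_, fun y h1 h2 => ?_, fun y hy => ?_, cj_upd _ hB.cj⟩
  · by_cases hyU : y ∈ U
    · rw [hs1 y hyU, hB.fc.runs y hy, if_neg (hUP y hyU),
        if_pos (Finset.mem_union_right _ (hUb y hyU)), h.cls]
    · have hyb : y ∉ Γ.blk n B := fun hb => hyU (Finset.mem_inter.mpr ⟨hy, hb⟩)
      rw [hs2 y hyU, hB.fc.runs y hy]
      by_cases hyP : y ∈ P
      · rw [if_pos hyP, if_pos (Finset.mem_union_left _ hyP)]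
      · rw [if_neg hyP, if_neg]
        rw [Finset.mem_union]
        rintro (h1 | h1)
        · exact hyP h1
        · exact hyb h1
  · rw [hs2 y (hnU y hy)]
    rcases hB.fc.rest y hy with h1 | h1
    · exact Or.inl h1
    · refine Or.inr ⟨le_trans ?_ h1.1, h1.2⟩
      by_cases hyP : y ∈ P
      · rw [if_pos hyP, if_pos (Finset.mem_union_left _ hyP)]
      · rw [if_neg hyP]
        split_ifs
        · exact h.cl_succ_le k
        · exact le_rfl
  · obtain ⟨dd, h1, h2⟩ := hB.fc.dens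
    exact ⟨dd, fun y hy => h1 y (hzero y hy), h2⟩
  · rw [hs2 y (hnU y hy)] at hcl
    exact hB.fc.shell m hm y hy hcl z hz
  · rw [hs2 y fun hyU => hB.disj h (hUr y hyU) hy]
    exact hB.ppos y hy
  · rw [hs2 y (hnU y h1)]
    exact hB.dead y h1 h2
  · rw [hs2 y fun hyU => hB.disj h (hUr y hyU) h1]
    exact hB.new y h1 h2
  · obtain ⟨e1, e2⟩ := hB.tru y hy
    by_cases hyU : y ∈ U
    · rw [hV1 y hyU, hs1 y hyU, hv1 y hyU, e1, e2]
      refine ⟨rfl, tsub_eq_of_eq_add ?_⟩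
      rw [← add_mul, add_tsub_cancel_of_le h.th1.le, one_mul]
    · rw [hV2 y hyU, hs2 y hyU, hζ y (hv2 y hyU), hv2 y hyU, e1, e2, add_zero, tsub_zero]
      exact ⟨rfl, rfl⟩

/-- the block `B` becomes bad; `a, r` are changed only at sites which are frozen afterwards -/
theorem Bs.rej (h : Pr Γ d o F th kk cl Kn Dn p π LI) {n k : ℕ} {P P' : Finset X} {T : Cfg X}
    {L : Lb X} {a a' : X → ℝ} {r r' : X → ℝ≥0} {x : ℕ × X → ℝ}
    (hB : Bs Γ kk cl Dn π LI n k P T L a r x) (hk : kk n ≤ k) {B : X} (hBB : Γ.bl n B = B)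
    (hP : P ⊆ P') (hd : ∀ y ∈ L.run, y ∉ Γ.enl n {B} 1 → y ∈ P' → y ∈ P)
    (ha : ∀ y, y ∉ L.pend → y ∉ Γ.enl n {B} 1 → a' y = a y ∧ r' y = r y)
    (ha2 : ∀ y, y ∉ L.pend → y ∉ L.run → a' y = a y ∧ r' y = r y) :
    Bs Γ kk cl Dn π LI n k P' T (L.add Γ n {B}) a' r' (Function.update x (n, B) 1) := by
  obtain ⟨u0, u1⟩ := upd01 hB.x0 hB.x1 (n, B) (t := 1) zero_le_one le_rfl
  have hrun : (L.add Γ n {B}).run = L.run \ Γ.enl n {B} 1 := rfl
  have hpend : (L.add Γ n {B}).pend = L.pend ∪ (L.run ∩ Γ.enl n {B} 1) := rfl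
  have hop : (L.add Γ n {B}).op = L.op := rfl
  have hbad : (L.add Γ n {B}).bad = Function.update L.bad n (L.bad n ∪ {B}) := rfl
  have hle : ∀ e, x e ≤ Function.update x (n, B) 1 e := by
    intro e
    by_cases he : e = (n, B)
    · subst he; rw [Function.update_self]; exact hB.x1 _
    · rw [Function.update_of_ne he]
  have hsub : (L.add Γ n {B}).run ⊆ L.run := by rw [hrun]; exact Finset.sdiff_subset
  refine ⟨h.add n L {B} hB.li (fun C hC => by rw [Finset.mem_singleton.mp hC]; exact hBB),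
    fun j hj => ?_, ?_, u0, u1, fun j C hC => ?_,
    fc_mono h hk hB.fc hP hsub (fun y hy hy2 => ?_), fun y hy => ?_, fun y h1 h2 => ?_,
    fun y h1 h2 => ?_, fun y hy => ?_, cj_upd _ hB.cj⟩
  · rw [hbad, Function.update_of_ne (by omega)]
    exact hB.badj j hj
  · rw [hop, hrun]
    exact hB.opr.mono_right Finset.sdiff_subset
  · rw [hbad] at hC
    by_cases hj : j = n
    · subst hj
      rw [Function.update_self, Finset.mem_union, Finset.mem_singleton] at hC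
      rcases hC with hC | hC
      · exact (hB.qq j C hC).trans (H72.qq_mono hB.x0 hle j C)
      · subst hC
        refine H72.qq_one_of_coin u0 ?_
        rw [Function.update_self]
    · rw [Function.update_of_ne hj] at hC
      exact (hB.qq j C hC).trans (H72.qq_mono hB.x0 hle j C)
  · rw [hrun, Finset.mem_sdiff] at hy
    exact hd y hy.1 hy.2 hy2
  · rw [hpend, Finset.mem_union, Finset.mem_inter] at hy
    rcases hy with hy | hy
    · exact hB.ppos y hy
    · exact hB.run_pos h y hy.1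
  · rw [hpend, Finset.mem_union, Finset.mem_inter, not_or] at h2
    rw [hrun, Finset.mem_sdiff] at h1
    refine hB.dead y (fun hr => ?_) h2.1
    exact h2.2 ⟨hr, by by_contra hc; exact h1 ⟨hr, hc⟩⟩
  · rw [hpend, Finset.mem_union, Finset.mem_inter] at h1
    rcases h1 with h1 | h1
    · exact hB.new y h1 h2
    · rw [hB.fc.runs y h1.1]
      split_ifs
      · exact (h.cl_succ_le k).trans (h.cl_anti hk)
      · exact h.cl_anti hk
  · rw [hpend, Finset.mem_union, Finset.mem_inter, not_or] at hy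
    have h1 : a' y = a y ∧ r' y = r y := by
      by_cases hr : y ∈ L.run
      · exact ha y hy.1 fun he => hy.2 ⟨hr, he⟩
      · exact ha2 y hy.1 hr
    rw [h1.1, h1.2]
    exact hB.tru y hy.1

/-- the end of a stage: new gauge, next clock -/
theorem Bs.stage {n k : ℕ} {T : Cfg X}
    {L : Lb X} {a : X → ℝ} {r : X → ℝ≥0} {x : ℕ × X → ℝ} (m : X → ℂ)
    (hB : Bs Γ kk cl Dn π LI n k Finset.univ T L a r x) :
    Bs Γ kk cl Dn π LI n (k + 1) ∅ (T.rg m) L a r x := by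
  refine ⟨hB.li, hB.badj, hB.opr, hB.x0, hB.x1, hB.qq,
    ⟨fun y hy => ?_, fun y hy => ?_, hB.fc.dens, hB.fc.shell⟩, hB.ppos, hB.dead, hB.new, hB.tru,
    hB.cj⟩
  · have := hB.fc.runs y hy
    rw [if_pos (Finset.mem_univ y)] at this
    rw [if_neg (Finset.notMem_empty y)]
    exact this
  · have := hB.fc.rest y hy
    rw [if_pos (Finset.mem_univ y)] at this
    rw [if_neg (Finset.notMem_empty y)]
    exact this

end Pool.Agent.ANP.H16
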